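import Pool.Agent.W387.Q.Def
import Pool.Agent.W387.S.Fin3

/-!
# The exponent three
-/

set_option autoImplicit false

namespace Pool.Agent.W387.Q

/-- the exponent three -/
instance ex3 : Ex where
  e := 3
  pos := by norm_num
  up := Pool.Agent.W387.S.sq_upper3
  pp := Pool.Agent.W387.S.sq_PP3

end Pool.Agent.W387.Q
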