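import Pool.Agent.W387.Q.Rate
import Pool.Agent.H739K.SWF

/-!
# The ratio theorem with a rate for weighted sums over self-avoiding walks
-/

set_option autoImplicit false
set_option linter.unusedVariables false
set_option linter.unusedSectionVars false

namespace Pool.Agent.W387.Q

open Finset Pool.Agent.H976R2 Pool.Agent.H924P Pool.Agent.H739K
open scoped Classical

variable [X : Ex]

namespace SWR

open Pool.Agent.H739K.SWR (card_le_mom' card_eq_cr')

lemma poly_le_exp : ∃ K : ℝ, 0 ≤ K ∧ ∀ m : ℕ, 2 ≤ m →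
    100 * ((m : ℝ) + 5) ^ 3 ≤ Real.exp (K * (Real.log m) ^ X.e) := by
  have hl2 : 0 < Real.log 2 := Real.log_pos (by norm_num)
  refine ⟨21 / Real.log 2 ^ (X.e - 1), by positivity, fun m hm => ?_⟩
  have hm' : (2 : ℝ) ≤ m := by exact_mod_cast hm
  have hlm : Real.log 2 ≤ Real.log m := Real.log_le_log (by norm_num) hm'
  have h1 : 100 * ((m : ℝ) + 5) ^ 3 ≤ (m : ℝ) ^ 21 := by
    have h2 : (m : ℝ) + 5 ≤ 4 * m := by linarith
    have h3 : (2 : ℝ) ^ 18 ≤ (m : ℝ) ^ 18 := pow_le_pow_left₀ (by norm_num) hm' 18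
    calc 100 * ((m : ℝ) + 5) ^ 3 ≤ 100 * (4 * m) ^ 3 := by gcongr
      _ = 6400 * (m : ℝ) ^ 3 := by ring
      _ ≤ (2 : ℝ) ^ 18 * (m : ℝ) ^ 3 := by gcongr; norm_num
      _ ≤ (m : ℝ) ^ 18 * (m : ℝ) ^ 3 := by gcongr
      _ = (m : ℝ) ^ 21 := by ring
  refine h1.trans ?_
  have h4 : (m : ℝ) ^ 21 = Real.exp (21 * Real.log m) := by
    rw [mul_comm, Real.exp_mul, Real.exp_log (by linarith)]
    norm_cast
  rw [h4]
  apply Real.exp_le_exp.mpr
  rw [div_mul_eq_mul_div, le_div_iff₀ (by positivity)]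
  calc 21 * Real.log m * Real.log 2 ^ (X.e - 1) ≤ 21 * Real.log m * Real.log m ^ (X.e - 1) := by
        have : 0 ≤ Real.log m := by linarith
        gcongr
    _ = 21 * Real.log m ^ X.e := by
        rw [mul_assoc, mul_pow_sub_one (by have := X.pos; omega)]

/-- **the ratio theorem with a rate for weighted sums over walks, uniform in the weight** -/
theorem main (L : ℝ) (hL : 0 ≤ L) : ∃ C : ℝ, ∀ (n : ℕ) (φ : List Dir → ℝ), 3 ≤ n →
    (∀ m : ℕ, 2 ≤ m → NiceW L m φ) →
    |mom φ (n + 2) / (H981.mu ^ 2 * mom φ n) - 1| ≤ C * rt n := by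
  obtain ⟨D, hD, hratio⟩ := Pool.Agent.H739K.SWR.ratio L hL
  obtain ⟨K1, hK1, hup⟩ := X.up
  obtain ⟨K2, hK2, hpoly⟩ := poly_le_exp
  have hmu1 : 1 ≤ H981.mu := H981.one_le_mu
  have hmu0 : 0 < H981.mu := H981.mu_pos
  obtain ⟨C, hC⟩ := RATE_proof (K1 + K2) D (by positivity) hD
  refine ⟨C, fun n φ hn hnice => ?_⟩
  have hcard : ∀ m : ℕ, 2 ≤ m → ((SW m).card : ℝ) ≤ mom φ m ∧
      mom φ m ≤ 100 * ((m : ℝ) + 5) ^ 3 * ((SW m).card : ℝ) := by
    intro m hm
    have hN := hnice m hm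
    refine ⟨card_le_mom' hN le_rfl (by omega), ?_⟩
    unfold mom
    have : 100 * ((m : ℝ) + 5) ^ 3 * ((SW m).card : ℝ) = ∑ w ∈ SW m, 100 * ((m : ℝ) + 5) ^ 3 := by
      rw [Finset.sum_const, nsmul_eq_mul]; ring
    rw [this]
    refine Finset.sum_le_sum fun w hw => ?_
    obtain ⟨hl, hs⟩ := mem_SW.mp hw
    exact hN.le w (by omega) (by omega) hs
  have key := hC n (fun m => mom φ m / H981.mu ^ m) hn ?_ ?_
  · have e1 : mom φ (n + 2) / (H981.mu ^ 2 * mom φ n) - 1 =
        (fun m => mom φ m / H981.mu ^ m) (n + 2) / (fun m => mom φ m / H981.mu ^ m) n - 1 := by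
      have hp : (0 : ℝ) < H981.mu ^ n := by positivity
      simp only
      rw [pow_add]
      by_cases h0 : mom φ n = 0
      · rw [h0]; simp
      · field_simp
    rw [e1]
    exact key
  · intro m hm1 hm2 hm3
    have h2m : 2 ≤ m := by omega
    obtain ⟨c1, c2⟩ := hcard m h2m
    have hp : (0 : ℝ) < H981.mu ^ m := by positivity
    have hlog : 0 ≤ Real.log (m : ℝ) := Real.log_natCast_nonneg m
    have d1 : H981.mu ^ m ≤ ((SW m).card : ℝ) := by rw [card_eq_cr']; exact H981.mu_pow_le m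
    have d2 : ((SW m).card : ℝ) ≤ H981.mu ^ m * Real.exp (K1 * Real.log m ^ X.e) := by
      rw [card_eq_cr']; exact hup m h2m
    constructor
    · rw [le_div_iff₀ hp]
      have e1 : Real.exp (-((K1 + K2) * (Real.log m) ^ X.e)) ≤ 1 := by
        rw [Real.exp_le_one_iff]
        have : 0 ≤ (K1 + K2) * (Real.log m) ^ X.e := by positivity
        linarith
      calc Real.exp (-((K1 + K2) * (Real.log m) ^ X.e)) * H981.mu ^ m ≤ 1 * H981.mu ^ m := by gcongr
        _ = H981.mu ^ m := one_mul _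
        _ ≤ _ := d1.trans c1
    · rw [div_le_iff₀ hp]
      have e2 := hpoly m h2m
      calc mom φ m ≤ 100 * ((m : ℝ) + 5) ^ 3 * ((SW m).card : ℝ) := c2
        _ ≤ Real.exp (K2 * Real.log m ^ X.e) * (H981.mu ^ m * Real.exp (K1 * Real.log m ^ X.e)) := by
            gcongr
        _ = Real.exp ((K1 + K2) * Real.log m ^ X.e) * H981.mu ^ m := by
            rw [add_mul, Real.exp_add]; ring
  · intro m hm1 hm2 hm3
    have h2m : 2 ≤ m := by omega
    have h := hratio m φ h2m (hnice m h2m)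
    have hp : (0 : ℝ) < H981.mu ^ m := by positivity
    have hm0 : (0 : ℝ) < m := by exact_mod_cast (by omega : 0 < m)
    rw [div_pow, ← pow_mul]
    have e1 : H981.mu ^ ((m + 2) * 2) = H981.mu ^ m * H981.mu ^ (m + 4) := by
      rw [← pow_add]; congr 1; ring
    have e2 : H981.mu ^ ((m + 2) * 2) = H981.mu ^ 4 * (H981.mu ^ m) ^ 2 := by
      rw [← pow_mul, ← pow_add]; congr 1; ring
    have h4 : (D / H981.mu ^ 4) / m * (mom φ m / H981.mu ^ m) ^ 2 ≤
        D / m * (mom φ m / H981.mu ^ m) ^ 2 := by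
      apply mul_le_mul_of_nonneg_right _ (by positivity)
      apply div_le_div_of_nonneg_right _ hm0.le
      exact div_le_self hD (one_le_pow₀ hmu1)
    have h3 : mom φ m / H981.mu ^ m * (mom φ (m + 4) / H981.mu ^ (m + 4)) +
        (D / H981.mu ^ 4) / m * (mom φ m / H981.mu ^ m) ^ 2 =
        (mom φ m * mom φ (m + 4) + D / m * mom φ m ^ 2) / H981.mu ^ ((m + 2) * 2) := by
      rw [add_div]
      congr 1
      · rw [e1]; field_simp
      · rw [e2]; field_simp
    calc mom φ (m + 2) ^ 2 / H981.mu ^ ((m + 2) * 2)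
        ≤ (mom φ m * mom φ (m + 4) + D / m * mom φ m ^ 2) / H981.mu ^ ((m + 2) * 2) :=
          div_le_div_of_nonneg_right h (by positivity)
      _ = _ := h3.symm
      _ ≤ _ := by linarith

end SWR

namespace SWF

open Pool.Agent.H739K.SWF (niceW_of_inv card_pos mom_one)
open Pool.Agent.W387.Q.SWR (main)

lemma rt_nonneg (n : ℕ) : 0 ≤ rt n := Real.sqrt_nonneg _

lemma rt_pos {n : ℕ} (hn : 2 ≤ n) : 0 < rt n := by
  have hn' : (2 : ℝ) ≤ n := by exact_mod_cast hn
  have hl : 0 < Real.log n := Real.log_pos (by linarith)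
  unfold rt
  positivity

theorem count : ∃ K : ℝ, ∀ n : ℕ, 2 ≤ n →
    |((SW (n + 2)).card : ℝ) / ((SW n).card : ℝ) - H981.mu ^ 2| ≤ K * rt n := by
  obtain ⟨C, hC⟩ := main 0 le_rfl
  have hmu0 : 0 < H981.mu := H981.mu_pos
  have h3 : ∀ n : ℕ, 3 ≤ n →
      |((SW (n + 2)).card : ℝ) / ((SW n).card : ℝ) - H981.mu ^ 2| ≤ (H981.mu ^ 2 * C) * rt n := by
    intro n hn
    have h := hC n (fun _ => 1) hn (fun m _ => niceW_of_inv _ (fun _ _ _ _ => rfl)
      (fun _ => le_rfl) (fun _ => by norm_num) m)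
    rw [mom_one, mom_one] at h
    have hc := card_pos n
    have e : ((SW (n + 2)).card : ℝ) / ((SW n).card : ℝ) - H981.mu ^ 2 =
        H981.mu ^ 2 * (((SW (n + 2)).card : ℝ) / (H981.mu ^ 2 * ((SW n).card : ℝ)) - 1) := by
      field_simp
    rw [e, abs_mul, abs_of_pos (show 0 < H981.mu ^ 2 by positivity), mul_assoc]
    gcongr
  have hr2 := rt_pos (n := 2) le_rfl
  refine ⟨max (H981.mu ^ 2 * C)
    (|((SW (2 + 2)).card : ℝ) / ((SW 2).card : ℝ) - H981.mu ^ 2| / rt 2), fun n hn => ?_⟩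
  rcases Nat.lt_or_ge n 3 with h | h
  · obtain rfl : n = 2 := by omega
    calc |((SW (2 + 2)).card : ℝ) / ((SW 2).card : ℝ) - H981.mu ^ 2|
        = (|((SW (2 + 2)).card : ℝ) / ((SW 2).card : ℝ) - H981.mu ^ 2| / rt 2) * rt 2 := by
          field_simp
      _ ≤ _ := mul_le_mul_of_nonneg_right (le_max_right _ _) hr2.le
  · exact (h3 n h).trans (mul_le_mul_of_nonneg_right (le_max_left _ _) (rt_nonneg n))

/-- laws of the endpoint: uniformly over all functions bounded by one -/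
theorem endpoint : ∃ K : ℝ, ∀ n : ℕ, 2 ≤ n → ∀ F : ℤ × ℤ → ℝ, (∀ x, |F x| ≤ 1) →
    |EE (n + 2) (fun w => F (wX w, wY w)) - EE n (fun w => F (wX w, wY w))| ≤ K * rt n := by
  obtain ⟨C, hC⟩ := main 0 le_rfl
  have hmu0 : 0 < H981.mu := H981.mu_pos
  have hr2 := rt_pos (n := 2) le_rfl
  obtain ⟨C', hC'⟩ : ∃ C', C' = max C 0 := ⟨_, rfl⟩
  have hC0 : 0 ≤ C' := by rw [hC']; exact le_max_right _ _
  have hCC : C ≤ C' := by rw [hC']; exact le_max_left _ _
  -- trivial bound
  have htriv : ∀ n : ℕ, ∀ F : ℤ × ℤ → ℝ, (∀ x, |F x| ≤ 1) → |EE n (fun w => F (wX w, wY w))| ≤ 1 := by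
    intro n F hF
    have hc := card_pos n
    unfold EE
    rw [abs_div, abs_of_pos hc, div_le_one hc]
    calc |∑ w ∈ SW n, F (wX w, wY w)| ≤ ∑ w ∈ SW n, |F (wX w, wY w)| := abs_sum_le_sum_abs _ _
      _ ≤ ∑ w ∈ SW n, (1 : ℝ) := Finset.sum_le_sum (fun w _ => hF _)
      _ = _ := by simp
  have h3 : ∀ n : ℕ, 3 ≤ n → ∀ F : ℤ × ℤ → ℝ, (∀ x, |F x| ≤ 1) →
      |EE (n + 2) (fun w => F (wX w, wY w)) - EE n (fun w => F (wX w, wY w))| ≤
        (12 * C') * rt n := by
    intro n hn F hF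
    rcases le_or_gt (1 / 2) (C' * rt n) with hbig | hsmall
    · have h1 := htriv (n + 2) F hF
      have h2 := htriv n F hF
      calc |EE (n + 2) (fun w => F (wX w, wY w)) - EE n (fun w => F (wX w, wY w))|
          ≤ |EE (n + 2) (fun w => F (wX w, wY w))| + |EE n (fun w => F (wX w, wY w))| := abs_sub _ _
        _ ≤ 2 := by linarith
        _ ≤ _ := by linarith
    · have hF' : ∀ x, -1 ≤ F x ∧ F x ≤ 1 := fun x => abs_le.mp (hF x)
      have g1 := hC n (fun _ => 1) hn (fun m _ => niceW_of_inv _ (fun _ _ _ _ => rfl)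
        (fun _ => le_rfl) (fun _ => by norm_num) m)
      have g2 := hC n (fun w => 2 + F (wX w, wY w)) hn (fun m _ => niceW_of_inv _
        (fun w i e hi => by simp only [wX_ins e hi, wY_ins e hi])
        (fun w => by have := (hF' (wX w, wY w)).1; linarith)
        (fun w => by have := (hF' (wX w, wY w)).2; linarith) m)
      rw [mom_one, mom_one] at g1
      have hc := card_pos n
      have hc2 := card_pos (n + 2)
      have hm : ∀ k, mom (fun w => 2 + F (wX w, wY w)) k =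
          ((SW k).card : ℝ) * (2 + EE k (fun w => F (wX w, wY w))) := by
        intro k
        have := card_pos k
        unfold mom EE
        rw [Finset.sum_add_distrib]
        simp only [Finset.sum_const, nsmul_eq_mul]
        field_simp
      rw [hm, hm] at g2
      have a1 := abs_le.mp (htriv n F hF)
      have a2 := abs_le.mp (htriv (n + 2) F hF)
      set e0 := EE n (fun w => F (wX w, wY w)) with he0
      set e2 := EE (n + 2) (fun w => F (wX w, wY w)) with he2
      obtain ⟨r0, hr0⟩ : ∃ r0, r0 = ((SW (n + 2)).card : ℝ) / (H981.mu ^ 2 * ((SW n).card : ℝ)) :=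
        ⟨_, rfl⟩
      have hq : ((SW (n + 2)).card : ℝ) * (2 + e2) / (H981.mu ^ 2 * (((SW n).card : ℝ) * (2 + e0))) =
          r0 * ((2 + e2) / (2 + e0)) := by
        have : 2 + e0 ≠ 0 := by linarith [a1.1]
        rw [hr0]; field_simp
      rw [hq] at g2
      rw [← hr0] at g1
      have b1 : |r0 - 1| ≤ C' * rt n := g1.trans (mul_le_mul_of_nonneg_right hCC (rt_nonneg n))
      have b2 : |r0 * ((2 + e2) / (2 + e0)) - 1| ≤ C' * rt n :=
        g2.trans (mul_le_mul_of_nonneg_right hCC (rt_nonneg n))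
      have hr0l : 1 / 2 ≤ r0 := by
        have := (abs_le.mp b1).1; linarith
      have hp : 0 < 2 + e0 := by linarith [a1.1]
      have hid : e2 - e0 = (2 + e0) / r0 * ((r0 * ((2 + e2) / (2 + e0)) - 1) - (r0 - 1)) := by
        have : r0 ≠ 0 := by linarith
        field_simp
        ring
      rw [hid, abs_mul]
      have hk : |(2 + e0) / r0| ≤ 6 := by
        rw [abs_of_pos (by positivity), div_le_iff₀ (by linarith)]
        linarith [a1.2]
      calc |(2 + e0) / r0| * |(r0 * ((2 + e2) / (2 + e0)) - 1) - (r0 - 1)|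
          ≤ 6 * (C' * rt n + C' * rt n) := by
            gcongr
            exact (abs_sub _ _).trans (add_le_add b2 b1)
        _ = (12 * C') * rt n := by ring
  refine ⟨max (12 * C') (2 / rt 2), fun n hn F hF => ?_⟩
  rcases Nat.lt_or_ge n 3 with h | h
  · obtain rfl : n = 2 := by omega
    have h1 := htriv (2 + 2) F hF
    have h2 := htriv 2 F hF
    calc |EE (2 + 2) (fun w => F (wX w, wY w)) - EE 2 (fun w => F (wX w, wY w))|
        ≤ |EE (2 + 2) (fun w => F (wX w, wY w))| + |EE 2 (fun w => F (wX w, wY w))| := abs_sub _ _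
      _ ≤ 2 := by linarith
      _ = 2 / rt 2 * rt 2 := by field_simp
      _ ≤ _ := mul_le_mul_of_nonneg_right (le_max_right _ _) hr2.le
  · exact (h3 n h F hF).trans (mul_le_mul_of_nonneg_right (le_max_left _ _) (rt_nonneg n))

end SWF

end Pool.Agent.W387.Q
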