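import Pool.Agent.W387.Q.Sparse

/-!
# Convergence along sparse sequences, uniformly over a family
-/

set_option autoImplicit false
set_option linter.unusedVariables false
set_option linter.unusedSectionVars false

namespace Pool.Agent.W387.Q

open Filter Topology

variable [X : Ex]

/-- the general comparison of late values with values along the sparse sequence, uniformly over a
family -/
theorem close_fam {ι : Type*} (v : ι → ℕ → ℝ) (C : ℝ) (hC : 0 ≤ C)
    (h : ∀ᶠ n : ℕ in atTop, ∀ i, |v i (n + 1) - v i n| ≤ C * rN n)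
    (w : ℕ → ℝ) (hw0 : ∀ᶠ n : ℕ in atTop, 0 < w n) (hw : ∀ᶠ n : ℕ in atTop, w n ≤ n * rN n)
    (s : ℕ → ℕ) (hs : Tendsto s atTop atTop)
    (hgap : Tendsto (fun k => ((s (k + 1) : ℝ) - s k) * rN (s k) / w (s k)) atTop (𝓝 0))
    (ε : ℝ) (hε : 0 < ε) (k0 : ℕ) :
    ∃ N0 : ℕ, ∀ n, N0 ≤ n → ∃ k, k0 ≤ k ∧ s k ≤ n ∧ n ≤ 2 * s k ∧
      ∀ i, |v i n - v i (s k)| < ε * w (s k) := by
  obtain ⟨B0, hB0⟩ : ∃ B0 : ℝ, B0 = (C + 1) * 2 ^ X.e := ⟨_, rfl⟩
  have hB0p : 0 < B0 := by rw [hB0]; positivity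
  -- eventually (in the values) all estimates hold
  obtain ⟨M, hM⟩ := eventually_atTop.mp (h.and (hw0.and (hw.and (eventually_ge_atTop 2))))
  -- eventually (in the index)
  have hg := hgap.eventually_lt_const (show (0 : ℝ) < min 1 (ε / (2 * B0)) by positivity)
  obtain ⟨k1, hk1⟩ := eventually_atTop.mp (hg.and ((hs.eventually_ge_atTop M)))
  -- bound for `s` on the first indices
  obtain ⟨B, hB⟩ : ∃ B : ℕ, ∀ k ≤ k0 + k1, s k ≤ B :=
    ⟨(Finset.range (k0 + k1 + 1)).sup s, fun k hk => Finset.le_sup (Finset.mem_range.mpr (by omega))⟩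
  refine ⟨B + 1, fun n hn => ?_⟩
  have hex : ∃ k, n < s k := (hs.eventually_gt_atTop n).exists
  classical
  have hk1' := Nat.find_spec hex
  have hk2' : ∀ k, k < Nat.find hex → ¬ n < s k := fun k hk => Nat.find_min hex hk
  set k' := Nat.find hex with hk'
  have hk'0 : k0 + k1 < k' := by
    by_contra hcon
    have := hB k' (by omega)
    omega
  obtain ⟨k, hkk⟩ : ∃ k, k' = k + 1 := ⟨k' - 1, by omega⟩
  rw [hkk] at hk1'
  have hsk : s k ≤ n := by
    have := hk2' k (by omega)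
    omega
  obtain ⟨hgk, hMk⟩ := hk1 k (by omega)
  obtain ⟨-, hw0k, hwk, hsk2⟩ := hM (s k) hMk
  have hsk1' : (2 : ℝ) ≤ s k := by exact_mod_cast hsk2
  have hrn : 0 ≤ rN (s k) := rN_nonneg _
  have hrn' : 0 < rN (s k) := by
    rcases hrn.eq_or_lt with h0 | h0
    · rw [← h0, mul_zero] at hwk
      linarith
    · exact h0
  have hn1 : (n : ℝ) < s (k + 1) := by exact_mod_cast hk1'
  -- the gap is small
  have hg1 : ((s (k + 1) : ℝ) - s k) * rN (s k) < w (s k) := by
    have := hgk.trans_le (min_le_left _ _)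
    rwa [div_lt_one hw0k] at this
  have hg2 : ((s (k + 1) : ℝ) - s k) * rN (s k) < ε / (2 * B0) * w (s k) := by
    have := hgk.trans_le (min_le_right _ _)
    rwa [div_lt_iff₀ hw0k] at this
  have hg3 : (s (k + 1) : ℝ) - s k < s k := by
    by_contra hcon
    push Not at hcon
    have : (s k : ℝ) * rN (s k) ≤ ((s (k + 1) : ℝ) - s k) * rN (s k) :=
      mul_le_mul_of_nonneg_right hcon hrn
    linarith
  have hn2 : n ≤ 2 * s k := by
    have : (n : ℝ) < 2 * s k := by linarith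
    have : n < 2 * s k := by exact_mod_cast this
    omega
  -- telescoping
  have htel : ∀ i, ∀ j : ℕ, s k + j ≤ n →
      |v i (s k + j) - v i (s k)| ≤ j * (C * (2 ^ X.e * rN (s k))) := by
    intro i j
    induction j with
    | zero => intro _; simp
    | succ j ih =>
      intro hj
      have h1 := ih (by omega)
      have h2 := (hM (s k + j) (by omega)).1 i
      have h3 := rN_window hsk2 (show s k ≤ s k + j by omega) (by omega)
      have h4 : |v i (s k + (j + 1)) - v i (s k + j)| ≤ C * (2 ^ X.e * rN (s k)) :=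
        h2.trans (mul_le_mul_of_nonneg_left h3 hC)
      calc |v i (s k + (j + 1)) - v i (s k)|
          ≤ |v i (s k + (j + 1)) - v i (s k + j)| + |v i (s k + j) - v i (s k)| := abs_sub_le _ _ _
        _ ≤ C * (2 ^ X.e * rN (s k)) + j * (C * (2 ^ X.e * rN (s k))) := add_le_add h4 h1
        _ = ((j + 1 : ℕ) : ℝ) * (C * (2 ^ X.e * rN (s k))) := by push_cast; ring
  have h1 := fun i => htel i (n - s k) (by omega)
  have e1 : s k + (n - s k) = n := by omega
  simp only [e1] at h1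
  have hdiff : ((n - s k : ℕ) : ℝ) ≤ (s (k + 1) : ℝ) - s k := by
    rw [Nat.cast_sub hsk]
    linarith
  refine ⟨k, by omega, hsk, hn2, fun i => ?_⟩
  calc |v i n - v i (s k)| ≤ ((n - s k : ℕ) : ℝ) * (C * (2 ^ X.e * rN (s k))) := h1 i
    _ ≤ ((s (k + 1) : ℝ) - s k) * (C * (2 ^ X.e * rN (s k))) := by gcongr
    _ = (C * 2 ^ X.e) * (((s (k + 1) : ℝ) - s k) * rN (s k)) := by ring
    _ ≤ B0 * (((s (k + 1) : ℝ) - s k) * rN (s k)) := by
        apply mul_le_mul_of_nonneg_right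
        · rw [hB0]; gcongr; linarith
        · apply mul_nonneg _ hrn
          linarith [show (0 : ℝ) ≤ ((n - s k : ℕ) : ℝ) from Nat.cast_nonneg _]
    _ ≤ B0 * (ε / (2 * B0) * w (s k)) := by gcongr
    _ = ε / 2 * w (s k) := by field_simp
    _ < ε * w (s k) := by
        apply mul_lt_mul_of_pos_right _ hw0k
        linarith

/-- comparison of the rate at the length `2 m + ε` with the rate at `m` -/
lemma rt_two_add {m j : ℕ} (hm : 2 ≤ m) (h1 : 2 * m ≤ j) (h2 : j ≤ 2 * m + 1) :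
    rt j ≤ 3 ^ X.e * rN m := by
  unfold rt rN
  have hNr : (2 : ℝ) ≤ m := by exact_mod_cast hm
  have hj1 : 2 * (m : ℝ) ≤ j := by exact_mod_cast h1
  have hj2 : (j : ℝ) ≤ 2 * m + 1 := by exact_mod_cast h2
  have hlog : Real.log j ≤ 3 * Real.log m := by
    have h1 : (j : ℝ) ≤ (m : ℝ) ^ 3 := by nlinarith [sq_nonneg ((m : ℝ) - 2)]
    have h2 := Real.log_le_log (by linarith) h1
    rw [Real.log_pow] at h2
    exact_mod_cast h2
  have hlog0 : 0 ≤ Real.log j := Real.log_natCast_nonneg _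
  have hlN : 0 ≤ Real.log (m : ℝ) := Real.log_nonneg (by linarith)
  have h2e : (1 : ℝ) ≤ 3 ^ X.e := one_le_pow₀ (by norm_num)
  have h4 : (Real.log j) ^ X.e / j ≤ (3 ^ X.e) ^ 2 * ((Real.log m) ^ X.e / m) := by
    calc (Real.log j) ^ X.e / j ≤ (3 * Real.log m) ^ X.e / m := by
          gcongr
          linarith
      _ = 1 * 3 ^ X.e * ((Real.log m) ^ X.e / m) := by rw [mul_pow]; ring
      _ ≤ 3 ^ X.e * 3 ^ X.e * ((Real.log m) ^ X.e / m) := by gcongr
      _ = _ := by ring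
  calc Real.sqrt ((Real.log j) ^ X.e / j)
      ≤ Real.sqrt ((3 ^ X.e) ^ 2 * ((Real.log m) ^ X.e / m)) := Real.sqrt_le_sqrt h4
    _ = 3 ^ X.e * Real.sqrt ((Real.log m) ^ X.e / m) := by
        rw [Real.sqrt_mul (by positivity), Real.sqrt_sq (by positivity)]

end Pool.Agent.W387.Q
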