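import Pool.Agent.W387.Q.Sparse2
import Mathlib.MeasureTheory.Measure.Portmanteau

/-!
# Convergence in distribution of the normalised area along sparse sequences
-/

set_option autoImplicit false
set_option linter.unusedVariables false
set_option linter.unusedSectionVars false

namespace Pool.Agent.W387.Q

open Finset Pool.Agent.H976R2 Pool.Agent.H924P Pool.Agent.H739K Filter Topology MeasureTheory

noncomputable section

namespace AL

/-- the mean of `g` of the normalised area -/
def L (N : ℕ) (g : ℝ → ℝ) : ℝ := me N (fun f => g ((area (2 * N) f : ℝ) / MA N))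

/-- the law of the normalised area (for `N ≥ 2`) -/
def law (N : ℕ) : Measure ℝ :=
  if 2 ≤ N then (((KP (2 * N - 1)).card : ENNReal))⁻¹ •
    ∑ w ∈ KP (2 * N - 1), Measure.dirac ((ar w : ℝ) / MA N) else Measure.dirac 0

lemma card_ne {N : ℕ} (hN : 2 ≤ N) : (KP (2 * N - 1)).card ≠ 0 := by
  have := card_KP_pos hN
  exact_mod_cast this.ne'

instance isProb (N : ℕ) : IsProbabilityMeasure (law N) := by
  unfold law
  split_ifs with h
  · constructor
    rw [Measure.smul_apply, Measure.finsetSum_apply]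
    simp only [measure_univ, Finset.sum_const, nsmul_eq_mul, mul_one, smul_eq_mul]
    exact ENNReal.inv_mul_cancel (by exact_mod_cast card_ne h) (ENNReal.natCast_ne_top _)
  · infer_instance

lemma L_eq {N : ℕ} (hN : 2 ≤ N) (g : ℝ → ℝ) :
    L N g = (∑ w ∈ KP (2 * N - 1), g ((ar w : ℝ) / MA N)) / ((KP (2 * N - 1)).card : ℝ) := by
  unfold L
  rw [F4x.me_eq CONV_proof hN]
  congr 1
  refine Finset.sum_congr rfl fun w hw => ?_
  rw [F4x.ar_eq hN hw]

lemma integral_law {N : ℕ} (hN : 2 ≤ N) (g : ℝ → ℝ) : ∫ x, g x ∂(law N) = L N g := by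
  unfold law
  rw [if_pos hN, integral_smul_measure, integral_finsetSum_measure, L_eq hN]
  · simp only [integral_dirac, ENNReal.toReal_inv, ENNReal.toReal_natCast, smul_eq_mul]
    rw [inv_mul_eq_div]
  · intro w hw
    exact integrable_dirac (by simp)

/-- the law as a probability measure -/
def plaw (N : ℕ) : ProbabilityMeasure ℝ := ⟨law N, isProb N⟩

variable [X : Ex]

theorem weak (s : ℕ → ℕ) (hs : Tendsto s atTop atTop)
    (hgap : Tendsto (fun k => ((s (k + 1) : ℝ) - s k) * rN (s k)) atTop (𝓝 0))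
    (ν : Measure ℝ) [IsProbabilityMeasure ν]
    (h : ∀ g : ℝ → ℝ, Continuous g → (∃ C, ∀ x, |g x| ≤ C) →
      Tendsto (fun k => L (s k) g) atTop (𝓝 (∫ x, g x ∂ν)))
    (g : ℝ → ℝ) (hg : Continuous g) (hgb : ∃ C, ∀ x, |g x| ≤ C) :
    Tendsto (fun n => L n g) atTop (𝓝 (∫ x, g x ∂ν)) := by
  obtain ⟨K, hK⟩ := f4
  -- the special Lipschitz functions
  have h1 : ∀ g : ℝ → ℝ, (∀ x y, |g x - g y| ≤ |x - y|) → (∀ x, |g x| ≤ 1) →
      Tendsto (fun n => L n g) atTop (𝓝 (∫ x, g x ∂ν)) := by
    intro g hgl hg1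
    have hcont : Continuous g := by
      have : LipschitzWith 1 g := LipschitzWith.of_dist_le_mul (fun x y => by
        rw [Real.dist_eq, Real.dist_eq, NNReal.coe_one, one_mul]
        exact hgl x y)
      exact this.continuous
    refine add_gen (fun n => L n g) |K| (abs_nonneg K) ?_ s hs hgap _ (h g hcont ⟨1, hg1⟩)
    filter_upwards [eventually_ge_atTop 2] with n hn
    exact (hK n hn g hgl hg1).trans (mul_le_mul_of_nonneg_right (le_abs_self K) (rN_nonneg n))
  -- probability measures
  obtain ⟨νp, hνp⟩ : ∃ νp : ProbabilityMeasure ℝ, (νp : Measure ℝ) = ν := ⟨⟨ν, inferInstance⟩, rfl⟩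
  have hw : Tendsto plaw atTop (𝓝 νp) := by
    rw [tendsto_iff_forall_lipschitz_integral_tendsto]
    rintro f ⟨C, hC⟩ ⟨Λ, hΛ⟩
    obtain ⟨M, hM⟩ : ∃ M : ℝ, M = |C| + (Λ : ℝ) + 1 := ⟨_, rfl⟩
    have hM0 : 0 < M := by rw [hM]; positivity
    have hf0 : ∀ x, |f x - f 0| ≤ M := fun x => by
      have h2 := hC x 0
      rw [Real.dist_eq] at h2
      have := le_abs_self C
      have h3 : (0 : ℝ) ≤ Λ := Λ.2
      rw [hM]; linarith
    have hfl : ∀ x y, |f x - f y| ≤ M * |x - y| := fun x y => by
      have h2 := hΛ.dist_le_mul x y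
      rw [Real.dist_eq, Real.dist_eq] at h2
      have h3 : (Λ : ℝ) ≤ M := by
        rw [hM]; have := abs_nonneg C; linarith
      exact h2.trans (mul_le_mul_of_nonneg_right h3 (abs_nonneg _))
    have h2 := h1 (fun x => (f x - f 0) / M) (fun x y => by
        rw [← sub_div, sub_sub_sub_cancel_right, abs_div, abs_of_pos hM0, div_le_iff₀ hM0]
        linarith [hfl x y]) (fun x => by
        rw [abs_div, abs_of_pos hM0, div_le_one hM0]
        exact hf0 x)
    have hint : ∀ μ : Measure ℝ, IsProbabilityMeasure μ → Integrable f μ := fun μ _ => by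
      refine Integrable.of_bound hΛ.continuous.aestronglyMeasurable (|f 0| + M)
        (Eventually.of_forall fun x => ?_)
      rw [Real.norm_eq_abs]
      have : f x = f 0 + (f x - f 0) := by ring
      rw [this]
      exact (abs_add_le _ _).trans (by linarith [hf0 x])
    have hE : ∀ μ : Measure ℝ, IsProbabilityMeasure μ →
        ∫ x, f x ∂μ = M * (∫ x, (f x - f 0) / M ∂μ) + f 0 := fun μ hμ => by
      rw [integral_div, integral_sub (hint μ hμ) (integrable_const _), integral_const]
      simp only [probReal_univ, smul_eq_mul, one_mul]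
      field_simp
      ring
    have h3 : Tendsto (fun n => M * (L n (fun x => (f x - f 0) / M)) + f 0) atTop
        (𝓝 (M * (∫ x, (f x - f 0) / M ∂ν) + f 0)) := (h2.const_mul M).add_const _
    rw [← hE ν inferInstance] at h3
    rw [hνp]
    refine h3.congr' ?_
    filter_upwards [eventually_ge_atTop 2] with n hn
    show _ = ∫ x, f x ∂(law n)
    rw [hE (law n) (isProb n), integral_law hn]
  rw [ProbabilityMeasure.tendsto_iff_forall_integral_tendsto] at hw
  obtain ⟨C, hC⟩ := hgb
  have h4 := hw (BoundedContinuousFunction.ofNormedAddCommGroup g hg C (fun x => by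
    rw [Real.norm_eq_abs]; exact hC x))
  rw [hνp] at h4
  refine h4.congr' ?_
  filter_upwards [eventually_ge_atTop 2] with n hn
  exact integral_law hn g

end AL

end

end Pool.Agent.W387.Q
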