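import Pool.Agent.H739K.Goals

/-!
# The exponent of the logarithm in the corrections to the growth of walks and polygons

`Ex` collects an exponent `e` and the two bounds with `exp (K (log N)^e)`; everything below is
stated for such an exponent.
-/

set_option autoImplicit false

namespace Pool.Agent.W387.Q

open Finset Pool.Agent.H976R2 Pool.Agent.H924P Pool.Agent.H739K
open scoped Classical

/-- an exponent for which the corrections to the exponential growth are controlled -/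
class Ex where
  /-- the exponent -/
  e : ℕ
  pos : 1 ≤ e
  up : ∃ K : ℝ, 0 ≤ K ∧ ∀ N : ℕ, 2 ≤ N →
    H981.cr' N ≤ H981.mu ^ N * Real.exp (K * Real.log N ^ e)
  pp : ∃ K : ℝ, 0 ≤ K ∧ ∀ N : ℕ, 2 ≤ N →
    H981.mu ^ (2 * N) * Real.exp (-(K * Real.log N ^ e)) ≤ H981.PP N ∧
      H981.PP N ≤ H981.mu ^ (2 * N) * Real.exp (K * Real.log N ^ e)

variable [X : Ex]

noncomputable section

/-- the error rate -/
def rt (n : ℕ) : ℝ := Real.sqrt ((Real.log n) ^ X.e / n)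

/-- the rate in terms of half of the perimeter -/
def rN (N : ℕ) : ℝ := Real.sqrt ((Real.log N) ^ X.e / N)

/-- T1: Kesten's ratio lemma with the rate, local and uniform -/
def S_rate : Prop := ∀ K D : ℝ, 0 ≤ K → 0 ≤ D → ∃ C : ℝ, ∀ (n : ℕ) (b : ℕ → ℝ), 3 ≤ n →
  (∀ m : ℕ, n ≤ 2 * m → m ≤ 2 * n → m % 2 = n % 2 →
    Real.exp (-(K * (Real.log m) ^ X.e)) ≤ b m ∧ b m ≤ Real.exp (K * (Real.log m) ^ X.e)) →
  (∀ m : ℕ, n ≤ 2 * m → m + 4 ≤ 2 * n → m % 2 = n % 2 →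
    b (m + 2) ^ 2 ≤ b m * b (m + 4) + D / m * b m ^ 2) →
  |b (n + 2) / b n - 1| ≤ C * rt n

/-- T2: growth of the number of words of polygons -/
def S_bnd : Prop := 2.43 ≤ H981.mu ∧ ∃ K : ℝ, 0 ≤ K ∧ ∀ n : ℕ, 3 ≤ n → n % 2 = 1 →
  H981.mu ^ n * Real.exp (-(K * (Real.log n) ^ X.e)) ≤ ((KP n).card : ℝ) ∧
  ((KP n).card : ℝ) ≤ H981.mu ^ n * Real.exp (K * (Real.log n) ^ X.e)

/-- T9: the ratio theorem for weights that are nice at all lengths in a window, uniformly -/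
def S_main : Prop := ∀ L : ℝ, 0 ≤ L → ∃ C : ℝ, ∀ (n : ℕ) (φ : List Dir → ℝ), 3 ≤ n →
  n % 2 = 1 → (∀ m : ℕ, 3 ≤ m → n ≤ 2 * m → m ≤ 2 * n → Nice L m φ) →
  |mm φ (n + 2) / (H981.mu ^ 2 * mm φ n) - 1| ≤ C * rt n

/-- F0: comparison of the two rates, and consequence of `S_main` for means -/
def S_F0 : Prop := ∀ L : ℝ, 0 ≤ L → ∃ C : ℝ, ∀ (N : ℕ) (φ : List Dir → ℝ), 2 ≤ N →
  (∀ m : ℕ, 3 ≤ m → m ≤ 4 * N → N ≤ m + 1 → Nice L m φ) →
  |(mm φ (2 * N + 1) / ((KP (2 * N + 1)).card : ℝ)) / (mm φ (2 * N - 1) / ((KP (2 * N - 1)).card : ℝ)) - 1|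
    ≤ C * rN N

/-- F1: ratio of the polygon counts -/
def S_F1 : Prop := ∃ C : ℝ, ∀ N : ℕ, 2 ≤ N →
  |H981.PP (N + 1) / H981.PP N - H981.mu ^ 2| ≤ C * rN N

/-- F2: ratio of the mean areas -/
def S_F2 : Prop := ∃ C : ℝ, ∀ N : ℕ, 2 ≤ N → |MA (N + 1) / MA N - 1| ≤ C * rN N

/-- F3: ratio of the mean widths -/
def S_F3 : Prop := ∃ C : ℝ, ∀ N : ℕ, 2 ≤ N → |MW (N + 1) / MW N - 1| ≤ C * rN N

/-- F4: the area laws merge -/
def S_F4 : Prop := ∃ C : ℝ, ∀ N : ℕ, 2 ≤ N → ∀ g : ℝ → ℝ, (∀ x y, |g x - g y| ≤ |x - y|) →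
  (∀ x, |g x| ≤ 1) →
  |me (N + 1) (fun f => g ((area (2 * (N + 1)) f : ℝ) / MA (N + 1))) -
    me N (fun f => g ((area (2 * N) f : ℝ) / MA N))| ≤ C * rN N

end

end Pool.Agent.W387.Q
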