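import Pool.Agent.W387.Q.Parity
import Pool.Agent.W387.Q.Ex3

/-!
# The gap condition for logarithmic exponents, for the exponent three
-/

set_option autoImplicit false

namespace Pool.Agent.W387.Q

open Filter Topology

lemma rN_div_log {n : ℕ} (hn : 2 ≤ n) :
    rN n / Real.log n = Real.sqrt (Real.log n / n) := by
  have hn' : (2 : ℝ) ≤ n := by exact_mod_cast hn
  have hl : 0 < Real.log n := Real.log_pos (by linarith)
  show Real.sqrt (Real.log n ^ 3 / n) / Real.log n = _
  rw [div_eq_iff hl.ne']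
  nth_rw 3 [← Real.sqrt_sq hl.le]
  rw [← Real.sqrt_mul (by positivity)]
  congr 1
  field_simp

lemma gap3 (s : ℕ → ℕ) (hs : Tendsto s atTop atTop)
    (hgap : Tendsto (fun k => ((s (k + 1) : ℝ) - s k) * Real.sqrt (Real.log (s k) / s k))
      atTop (𝓝 0)) :
    Tendsto (fun k => ((s (k + 1) : ℝ) - s k) * rN (s k) / Real.log (s k)) atTop (𝓝 0) := by
  refine hgap.congr' ?_
  filter_upwards [hs.eventually_ge_atTop 2] with k hk
  rw [mul_div_assoc, rN_div_log hk]

end Pool.Agent.W387.Q
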