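import Pool.Agent.W387.Q.Sparse
import Pool.Agent.W387.Q.Walk
import Pool.Agent.H739K.HYP

/-!
# Ratios of the polygon counts, walk counts and mean square displacements
-/

set_option autoImplicit false
set_option linter.unusedVariables false
set_option linter.unusedSectionVars false

namespace Pool.Agent.W387.Q

open Finset Pool.Agent.H976R2 Pool.Agent.H924P Pool.Agent.H739K Filter Topology
open scoped Classical

variable [X : Ex]

namespace HYP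

open Pool.Agent.H739K.HYP (a R a_pos nice_sq mom_sq_pos R_pos)

lemma rt_two (N : ℕ) (hN : 2 ≤ N) : rt (2 * N) ≤ 2 ^ X.e * rN N := by
  unfold rt rN
  have hNr : (2 : ℝ) ≤ N := by exact_mod_cast hN
  have hcast : ((2 * N : ℕ) : ℝ) = 2 * N := by push_cast; ring
  have hlog : Real.log ((2 * N : ℕ) : ℝ) ≤ 2 * Real.log N := by
    have h1 : ((2 * N : ℕ) : ℝ) ≤ (N : ℝ) ^ 2 := by rw [hcast]; nlinarith
    have h2 := Real.log_le_log (by rw [hcast]; linarith) h1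
    rw [Real.log_pow] at h2
    exact_mod_cast h2
  have hlog0 : 0 ≤ Real.log ((2 * N : ℕ) : ℝ) := Real.log_natCast_nonneg _
  have hlN : 0 ≤ Real.log (N : ℝ) := Real.log_nonneg (by linarith)
  have h3 : (Real.log ((2 * N : ℕ) : ℝ)) ^ X.e ≤ 2 ^ X.e * (Real.log N) ^ X.e := by
    calc _ ≤ (2 * Real.log N) ^ X.e := pow_le_pow_left₀ hlog0 hlog X.e
      _ = _ := by rw [mul_pow]
  have h2e : (1 : ℝ) ≤ 2 ^ X.e := one_le_pow₀ (by norm_num)
  have h4 : (Real.log ((2 * N : ℕ) : ℝ)) ^ X.e / ((2 * N : ℕ) : ℝ) ≤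
      (2 ^ X.e) ^ 2 * ((Real.log N) ^ X.e / N) := by
    calc (Real.log ((2 * N : ℕ) : ℝ)) ^ X.e / ((2 * N : ℕ) : ℝ)
        ≤ 2 ^ X.e * (Real.log N) ^ X.e / N := by
          apply div_le_div₀ (by positivity) h3 (by linarith)
          rw [hcast]; linarith
      _ = 1 * 2 ^ X.e * ((Real.log N) ^ X.e / N) := by ring
      _ ≤ 2 ^ X.e * 2 ^ X.e * ((Real.log N) ^ X.e / N) := by gcongr
      _ = _ := by ring
  calc Real.sqrt ((Real.log ((2 * N : ℕ) : ℝ)) ^ X.e / ((2 * N : ℕ) : ℝ))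
      ≤ Real.sqrt ((2 ^ X.e) ^ 2 * ((Real.log N) ^ X.e / N)) := Real.sqrt_le_sqrt h4
    _ = 2 ^ X.e * Real.sqrt ((Real.log N) ^ X.e / N) := by
        rw [Real.sqrt_mul (by positivity), Real.sqrt_sq (by positivity)]

lemma tend {x : ℕ → ℝ} {C : ℝ} (hx : ∀ n : ℕ, 2 ≤ n → |x n - 1| ≤ C * rN n) :
    Tendsto x atTop (𝓝 1) := by
  have h0 : Tendsto (fun m : ℕ => rN m) atTop (𝓝 0) := F0_rt_tendsto
  have h3 : Tendsto (fun m : ℕ => C * rN m) atTop (𝓝 0) := by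
    simpa using h0.const_mul C
  rw [tendsto_iff_norm_sub_tendsto_zero]
  refine squeeze_zero' (Eventually.of_forall fun _ => norm_nonneg _) ?_ h3
  filter_upwards [eventually_ge_atTop 2] with N hN
  rw [Real.norm_eq_abs]
  exact hx N hN

lemma quot {x y : ℕ → ℝ} {Cx Cy : ℝ} (hx : ∀ n : ℕ, 2 ≤ n → |x n - 1| ≤ Cx * rN n)
    (hy : ∀ n : ℕ, 2 ≤ n → |y n - 1| ≤ Cy * rN n) (hy0 : ∀ n : ℕ, 2 ≤ n → 0 < y n) :
    ∃ C : ℝ, ∀ n : ℕ, 2 ≤ n → |x n / y n - 1| ≤ C * rN n := by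
  obtain ⟨b, hb⟩ := ((tend hy).inv₀ one_ne_zero).bddAbove_range
  refine ⟨(|Cx| + |Cy|) * |b|, fun n hn => ?_⟩
  have h1 := hx n hn
  have h2 := hy n hn
  have h0 := hy0 n hn
  have hr0 : 0 ≤ rN n := F0_rN_nonneg n
  have h3 : (y n)⁻¹ ≤ |b| := (hb ⟨n, rfl⟩).trans (le_abs_self _)
  have e : x n / y n - 1 = ((x n - 1) - (y n - 1)) * (y n)⁻¹ := by
    field_simp
    ring
  rw [e, abs_mul, abs_of_pos (inv_pos.mpr h0)]
  have h4 : |(x n - 1) - (y n - 1)| ≤ (|Cx| + |Cy|) * rN n := by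
    refine (abs_sub _ _).trans ?_
    have g1 : Cx * rN n ≤ |Cx| * rN n := mul_le_mul_of_nonneg_right (le_abs_self _) hr0
    have g2 : Cy * rN n ≤ |Cy| * rN n := mul_le_mul_of_nonneg_right (le_abs_self _) hr0
    linarith
  calc |(x n - 1) - (y n - 1)| * (y n)⁻¹ ≤ ((|Cx| + |Cy|) * rN n) * |b| :=
        mul_le_mul h4 h3 (by positivity) (by positivity)
    _ = _ := by ring

/-- ratios of the polygon counts -/
theorem ra : ∃ C : ℝ, ∀ N : ℕ, 2 ≤ N → |a (N + 1) / (H981.mu ^ 2 * a N) - 1| ≤ C * rN N := by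
  obtain ⟨C, hC⟩ := main' 0 le_rfl
  refine ⟨|C| * 2 ^ X.e, fun N hN => ?_⟩
  have h := hC (2 * N - 1) (fun _ => 1) (by omega) (by omega) (fun m _ _ _ => F0_nice_one m)
  rw [F0_mm_one, F0_mm_one] at h
  have e : 2 * (N + 1) - 1 = 2 * N - 1 + 2 := by omega
  unfold a
  rw [e]
  refine h.trans ?_
  calc C * rt (2 * N - 1) ≤ |C| * (2 ^ X.e * rN N) :=
        mul_le_mul (le_abs_self _) (F0_rt_le N hN) (F0_rt_nonneg _) (abs_nonneg _)
    _ = _ := by ring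

/-- ratios of the walk counts -/
theorem rc : ∃ C : ℝ, ∀ N : ℕ, 2 ≤ N →
    |((SW (2 * (N + 1))).card : ℝ) / (H981.mu ^ 2 * ((SW (2 * N)).card : ℝ)) - 1| ≤ C * rN N := by
  obtain ⟨C, hC⟩ := SWR.main 0 le_rfl
  refine ⟨|C| * 2 ^ X.e, fun N hN => ?_⟩
  have h := hC (2 * N) (fun _ => 1) (by omega) (fun m _ => Pool.Agent.H739K.SWF.niceW_of_inv _ (fun _ _ _ _ => rfl)
      (fun _ => le_rfl) (fun _ => by norm_num) m)
  rw [Pool.Agent.H739K.SWF.mom_one, Pool.Agent.H739K.SWF.mom_one] at h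
  rw [show 2 * (N + 1) = 2 * N + 2 by ring]
  refine h.trans ?_
  calc C * rt (2 * N) ≤ |C| * (2 ^ X.e * rN N) :=
        mul_le_mul (le_abs_self _) (rt_two N hN) (F0_rt_nonneg _) (abs_nonneg _)
    _ = _ := by ring

/-- ratios of the second moments -/
theorem rm : ∃ C : ℝ, ∀ N : ℕ, 2 ≤ N →
    |mom sq (2 * (N + 1)) / (H981.mu ^ 2 * mom sq (2 * N)) - 1| ≤ C * rN N := by
  obtain ⟨C, hC⟩ := SWR.main 0 le_rfl
  refine ⟨|C| * 2 ^ X.e, fun N hN => ?_⟩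
  have h := hC (2 * N) sq (by omega) (fun m hm => nice_sq m hm)
  rw [show 2 * (N + 1) = 2 * N + 2 by ring]
  refine h.trans ?_
  calc C * rt (2 * N) ≤ |C| * (2 ^ X.e * rN N) :=
        mul_le_mul (le_abs_self _) (rt_two N hN) (F0_rt_nonneg _) (abs_nonneg _)
    _ = _ := by ring

/-- ratios of the mean square displacements -/
theorem rR : ∃ C : ℝ, ∀ N : ℕ, 2 ≤ N → |R (N + 1) / R N - 1| ≤ C * rN N := by
  obtain ⟨C1, h1⟩ := rm
  obtain ⟨C2, h2⟩ := rc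
  have hmu : 0 < H981.mu := H981.mu_pos
  obtain ⟨C, hC⟩ := quot h1 h2 (fun n hn => by
    have := SW_card_pos (2 * (n + 1))
    have := SW_card_pos (2 * n)
    positivity)
  refine ⟨C, fun N hN => ?_⟩
  have h := hC N hN
  have e : mom sq (2 * (N + 1)) / (H981.mu ^ 2 * mom sq (2 * N)) /
      (((SW (2 * (N + 1))).card : ℝ) / (H981.mu ^ 2 * ((SW (2 * N)).card : ℝ))) = R (N + 1) / R N := by
    unfold R
    have g1 := SW_card_pos (2 * (N + 1))
    have g2 := SW_card_pos (2 * N)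
    have g3 := mom_sq_pos (n := 2 * N) (by omega)
    field_simp
  rw [e] at h
  exact h

end HYP

end Pool.Agent.W387.Q
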