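import Pool.Agent.W387.Q.Hyp

/-!
# Logarithmic exponents of the walk counts: from even lengths to all lengths
-/

set_option autoImplicit false
set_option linter.unusedVariables false
set_option linter.unusedSectionVars false

namespace Pool.Agent.W387.Q

open Filter Topology

/-- the counts of walks of consecutive lengths are comparable -/
lemma cr_close (m : ℕ) : |Real.log (H981.cr' (2 * m + 1) / H981.mu ^ (2 * m + 1)) -
    Real.log (H981.cr' (2 * m) / H981.mu ^ (2 * m))| ≤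
      Real.log (H981.cr' 1) + Real.log H981.mu + |Real.log (H981.cr' (2 * (m + 1)) /
        H981.mu ^ (2 * (m + 1))) - Real.log (H981.cr' (2 * m) / H981.mu ^ (2 * m))| := by
  have hmu : 0 < H981.mu := H981.mu_pos
  have hmu1 : 1 ≤ H981.mu := H981.one_le_mu
  have hp : ∀ n, 0 < H981.cr' n := fun n => lt_of_lt_of_le one_pos (H981.one_le_cr' n)
  have h1 := H981.cr'_mul (2 * m) 1
  have h2 := H981.cr'_mul (2 * m + 1) 1
  have e : 2 * m + 1 + 1 = 2 * (m + 1) := by ring
  rw [e] at h2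
  have l1 := Real.log_le_log (hp _) h1
  have l2 := Real.log_le_log (hp _) h2
  rw [Real.log_mul (hp _).ne' (hp _).ne'] at l1 l2
  rw [Real.log_div (hp _).ne' (by positivity), Real.log_div (hp _).ne' (by positivity),
    Real.log_div (hp _).ne' (by positivity), Real.log_pow, Real.log_pow, Real.log_pow]
  have hlm : 0 ≤ Real.log H981.mu := Real.log_nonneg hmu1
  have hl1 : 0 ≤ Real.log (H981.cr' 1) := Real.log_nonneg (H981.one_le_cr' 1)
  push_cast at *
  set a := Real.log (H981.cr' (2 * m))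
  set b := Real.log (H981.cr' (2 * m + 1))
  set c := Real.log (H981.cr' (2 * (m + 1)))
  set l := Real.log H981.mu
  have h3 := neg_abs_le (c - 2 * ((m : ℝ) + 1) * l - (a - 2 * (m : ℝ) * l))
  have h4 := le_abs_self (c - 2 * ((m : ℝ) + 1) * l - (a - 2 * (m : ℝ) * l))
  have h5 := abs_nonneg (c - 2 * ((m : ℝ) + 1) * l - (a - 2 * (m : ℝ) * l))
  rw [abs_le]
  constructor <;> nlinarith

/-- if the exponent exists along even lengths, it exists along all lengths -/
theorem all_of_even (hb : ∃ B : ℝ, ∀ m : ℕ, 2 ≤ m → |Real.log (H981.cr' (2 * (m + 1)) /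
      H981.mu ^ (2 * (m + 1))) - Real.log (H981.cr' (2 * m) / H981.mu ^ (2 * m))| ≤ B) (g : ℝ)
    (h : Tendsto (fun m : ℕ => Real.log (H981.cr' (2 * m) / H981.mu ^ (2 * m)) /
      Real.log ((2 * m : ℕ) : ℝ)) atTop (𝓝 g)) :
    Tendsto (fun n : ℕ => Real.log (H981.cr' n / H981.mu ^ n) / Real.log n) atTop (𝓝 g) := by
  obtain ⟨B, hB⟩ := hb
  have hlt : Tendsto (fun n : ℕ => Real.log (n : ℝ)) atTop atTop :=
    Real.tendsto_log_atTop.comp tendsto_natCast_atTop_atTop
  obtain ⟨D, hD⟩ : ∃ D : ℝ, D = Real.log (H981.cr' 1) + Real.log H981.mu + B + |g| * 1 := ⟨_, rfl⟩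
  rw [Metric.tendsto_atTop]
  intro ε hε
  obtain ⟨M, hM⟩ := (Metric.tendsto_atTop.mp h) (ε / 2) (by positivity)
  obtain ⟨N1, hN1⟩ := eventually_atTop.mp (hlt.eventually_gt_atTop (2 * |D| / ε + 1))
  refine ⟨max (2 * M + 6) N1, fun n hn => ?_⟩
  have hn1 := hN1 n ((le_max_right _ _).trans hn)
  have hn2 : 2 * M + 6 ≤ n := (le_max_left _ _).trans hn
  rw [Real.dist_eq]
  rcases Nat.even_or_odd' n with ⟨m, rfl | rfl⟩
  · have := hM m (by omega)
    rw [Real.dist_eq] at this
    calc _ < ε / 2 := this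
      _ ≤ ε := by linarith
  · have h1 := hM m (by omega)
    rw [Real.dist_eq] at h1
    have h2 := cr_close m
    have h3 := hB m (by omega)
    have hm : (3 : ℝ) ≤ m := by exact_mod_cast (by omega : 3 ≤ m)
    set x := Real.log (H981.cr' (2 * m) / H981.mu ^ (2 * m)) with hx
    set y := Real.log (H981.cr' (2 * m + 1) / H981.mu ^ (2 * m + 1)) with hy
    have hLe : 0 < Real.log ((2 * m : ℕ) : ℝ) := Real.log_pos (by push_cast; linarith)
    have hLo : 0 < Real.log ((2 * m + 1 : ℕ) : ℝ) := Real.log_pos (by push_cast; linarith)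
    have hLeo : Real.log ((2 * m : ℕ) : ℝ) ≤ Real.log ((2 * m + 1 : ℕ) : ℝ) :=
      Real.log_le_log (by push_cast; linarith) (by push_cast; linarith)
    have hLoe : Real.log ((2 * m + 1 : ℕ) : ℝ) ≤ Real.log ((2 * m : ℕ) : ℝ) + 1 := by
      have e1 : Real.log ((2 * m + 1 : ℕ) : ℝ) ≤ Real.log (2 * ((2 * m : ℕ) : ℝ)) :=
        Real.log_le_log (by push_cast; linarith) (by push_cast; linarith)
      rw [Real.log_mul (by norm_num) (by push_cast; positivity)] at e1
      have := Real.log_two_lt_d9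
      linarith
    set Le := Real.log ((2 * m : ℕ) : ℝ) with hLe'
    set Lo := Real.log ((2 * m + 1 : ℕ) : ℝ) with hLo'
    have g1 : |x - g * Le| ≤ ε / 2 * Lo := by
      have e : x - g * Le = (x / Le - g) * Le := by field_simp
      rw [e, abs_mul, abs_of_pos hLe]
      exact mul_le_mul h1.le hLeo hLe.le (by positivity)
    have g2 : |g * Le - g * Lo| ≤ |g| * 1 := by
      rw [← mul_sub, abs_mul]
      apply mul_le_mul_of_nonneg_left _ (abs_nonneg g)
      rw [abs_le]; constructor <;> linarith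
    have g3 : |y - g * Lo| ≤ D + ε / 2 * Lo := by
      have e : y - g * Lo = (y - x) + (x - g * Le) + (g * Le - g * Lo) := by ring
      rw [e]
      refine (abs_add_le _ _).trans ?_
      have := abs_add_le (y - x) (x - g * Le)
      linarith
    have e : y / Lo - g = (y - g * Lo) / Lo := by field_simp
    rw [e, abs_div, abs_of_pos hLo, div_lt_iff₀ hLo]
    have h5 : 2 * |D| / ε < Lo := by linarith
    rw [div_lt_iff₀ hε] at h5
    have := le_abs_self D
    have := abs_nonneg D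
    linarith

variable [X : Ex]

lemma cr_pos (n : ℕ) : 0 < H981.cr' n := lt_of_lt_of_le one_pos (H981.one_le_cr' n)

/-- the normalised counts along even lengths -/
theorem cr_ratio : ∃ C : ℝ, ∀ N : ℕ, 2 ≤ N →
    |(H981.cr' (2 * (N + 1)) / H981.mu ^ (2 * (N + 1))) / (H981.cr' (2 * N) / H981.mu ^ (2 * N)) - 1|
      ≤ C * rN N := by
  obtain ⟨C, hC⟩ := HYP.rc
  refine ⟨C, fun N hN => ?_⟩
  have h := hC N hN
  rw [Pool.Agent.H739K.SWR.card_eq_cr', Pool.Agent.H739K.SWR.card_eq_cr'] at h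
  have e : (H981.cr' (2 * (N + 1)) / H981.mu ^ (2 * (N + 1))) / (H981.cr' (2 * N) /
      H981.mu ^ (2 * N)) = H981.cr' (2 * (N + 1)) / (H981.mu ^ 2 * H981.cr' (2 * N)) := by
    have hmu : 0 < H981.mu := H981.mu_pos
    have h0 := cr_pos (2 * N)
    rw [show 2 * (N + 1) = 2 * N + 2 by ring, pow_add]
    field_simp
  rw [e]
  exact h

theorem cr_log_step : ∃ B : ℝ, ∀ m : ℕ, 2 ≤ m → |Real.log (H981.cr' (2 * (m + 1)) /
      H981.mu ^ (2 * (m + 1))) - Real.log (H981.cr' (2 * m) / H981.mu ^ (2 * m))| ≤ B := by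
  have hmu : 0 < H981.mu := H981.mu_pos
  have hmu1 : 1 ≤ H981.mu := H981.one_le_mu
  obtain ⟨C, hC⟩ := cr_ratio
  have hpos : ∀ n : ℕ, 0 < H981.cr' (2 * n) / H981.mu ^ (2 * n) := fun n =>
    div_pos (cr_pos _) (by positivity)
  have h' : ∀ n : ℕ, 2 ≤ n → |(H981.cr' (2 * (n + 1)) / H981.mu ^ (2 * (n + 1))) /
      (H981.cr' (2 * n) / H981.mu ^ (2 * n)) - 1| ≤ |C| * rN n := fun n hn =>
    (hC n hn).trans (mul_le_mul_of_nonneg_right (le_abs_self _) (rN_nonneg n))
  obtain ⟨M, hM⟩ := eventually_atTop.mp (log_step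
    (fun n => H981.cr' (2 * n) / H981.mu ^ (2 * n)) |C| (abs_nonneg C) (fun n _ => hpos n) h')
  obtain ⟨B, hB0, hB⟩ := rN_bdd
  refine ⟨2 * |C| * B + ∑ m ∈ Finset.range M, |Real.log (H981.cr' (2 * (m + 1)) /
      H981.mu ^ (2 * (m + 1))) - Real.log (H981.cr' (2 * m) / H981.mu ^ (2 * m))|, fun m _ => ?_⟩
  have hs0 : 0 ≤ ∑ m ∈ Finset.range M, |Real.log (H981.cr' (2 * (m + 1)) /
      H981.mu ^ (2 * (m + 1))) - Real.log (H981.cr' (2 * m) / H981.mu ^ (2 * m))| :=
    Finset.sum_nonneg (fun _ _ => abs_nonneg _)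
  rcases Nat.lt_or_ge m M with h | h
  · have := Finset.single_le_sum (f := fun m => |Real.log (H981.cr' (2 * (m + 1)) /
      H981.mu ^ (2 * (m + 1))) - Real.log (H981.cr' (2 * m) / H981.mu ^ (2 * m))|)
      (fun _ _ => abs_nonneg _) (Finset.mem_range.mpr h)
    have h2 : 0 ≤ 2 * |C| * B := by positivity
    linarith
  · have h1 := hM m h
    have h2 : 2 * |C| * rN m ≤ 2 * |C| * B := by
      gcongr; exact hB m
    linarith

/-- **the exponent `γ - 1` exists as soon as it exists along a sparse sequence of even lengths** -/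
theorem gamma_sparse (s : ℕ → ℕ) (hs : Tendsto s atTop atTop)
    (hgap : Tendsto (fun k => ((s (k + 1) : ℝ) - s k) * rN (s k) / Real.log (s k)) atTop (𝓝 0))
    (g : ℝ) (hg : Tendsto (fun k => Real.log (H981.cr' (2 * s k) / H981.mu ^ (2 * s k)) /
      Real.log ((2 * s k : ℕ) : ℝ)) atTop (𝓝 g)) :
    Tendsto (fun n : ℕ => Real.log (H981.cr' n / H981.mu ^ n) / Real.log n) atTop (𝓝 g) := by
  have hmu : 0 < H981.mu := H981.mu_pos
  obtain ⟨C, hC⟩ := cr_ratio
  apply all_of_even cr_log_step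
  refine exp_gen (fun m => H981.cr' (2 * m) / H981.mu ^ (2 * m)) C
    (fun n _ => div_pos (cr_pos _) (by positivity)) hC
    (fun m => Real.log ((2 * m : ℕ) : ℝ)) ?_ s hs hgap g hg
  intro n hn
  have hn' : (2 : ℝ) ≤ n := by exact_mod_cast hn
  push_cast
  rw [Real.log_mul (by norm_num) (by positivity), add_sub_cancel_right,
    abs_of_nonneg (Real.log_nonneg (by norm_num))]
  have := Real.log_two_lt_d9
  linarith

end Pool.Agent.W387.Q
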