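import Pool.Agent.W387.Q.Rate
import Pool.Agent.H739K.All2

/-!
# The polygon part: ratio theorem for nice weights, areas and widths
-/

set_option autoImplicit false
set_option linter.unusedVariables false
set_option linter.unusedSectionVars false

namespace Pool.Agent.W387.Q

open Finset Pool.Agent.H976R2 Pool.Agent.H924P Pool.Agent.H739K Filter Topology
open scoped Classical

variable [X : Ex]

theorem BND_proof (hconv : S_conv) : S_bnd := by
  refine ⟨BNDx.mu_ge, ?_⟩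
  obtain ⟨K, hK, h⟩ := X.pp
  have hmu := BNDx.mu_ge
  have hmu1 : (1 : ℝ) ≤ H981.mu := by linarith
  have hmu0 : (0 : ℝ) < H981.mu := by linarith
  refine ⟨K + 3 + H981.mu, by positivity, fun n hn hodd => ?_⟩
  obtain ⟨N, hN, hnN⟩ : ∃ N : ℕ, 2 ≤ N ∧ n = 2 * N - 1 := ⟨(n + 1) / 2, by omega, by omega⟩
  obtain ⟨hlo, hup⟩ := h N hN
  have hcard : ((KP n).card : ℝ) = 4 * (N : ℝ) * H981.PP N := by
    have h1 := (hconv N hN).2.1
    rw [hnN, ← h1]
    obtain ⟨M, rfl⟩ : ∃ M, N = M + 1 := ⟨N - 1, by omega⟩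
    rw [← card_loops M, ← Nat.card_coe_set_eq]
    rfl
  have hnR : (3 : ℝ) ≤ n := by exact_mod_cast hn
  have hNR : (2 : ℝ) ≤ N := by exact_mod_cast hN
  have hNn : (N : ℝ) ≤ n := by
    have : N ≤ n := by omega
    exact_mod_cast this
  have hN2 : 4 * (N : ℝ) ≤ 4 * n := by linarith
  have hlogn : 1 ≤ Real.log n := by
    rw [Real.le_log_iff_exp_le (by linarith)]
    have := Real.exp_one_lt_d9
    linarith
  have hlogN : 0 ≤ Real.log N := Real.log_nonneg (by linarith)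
  have hlogNn : Real.log N ≤ Real.log n := Real.log_le_log (by linarith) hNn
  set T := Real.log n ^ X.e with hT
  have hT1 : 1 ≤ T := one_le_pow₀ hlogn
  have hTlog : Real.log n ≤ T := by
    calc Real.log n = Real.log n ^ 1 := (pow_one _).symm
      _ ≤ T := pow_le_pow_right₀ hlogn X.pos
  have hNT : Real.log N ^ X.e ≤ T := pow_le_pow_left₀ hlogN hlogNn X.e
  have hpow : H981.mu ^ (2 * N) = H981.mu ^ n * H981.mu := by
    rw [← pow_succ]
    congr 1
    omega
  have hpn : 0 < H981.mu ^ n := pow_pos hmu0 n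
  rw [hcard]
  constructor
  · have e1 : H981.mu ^ n * Real.exp (-((K + 3 + H981.mu) * T)) ≤
        H981.mu ^ (2 * N) * Real.exp (-(K * Real.log N ^ X.e)) := by
      rw [hpow]
      have a1 : H981.mu ^ n ≤ H981.mu ^ n * H981.mu := le_mul_of_one_le_right hpn.le hmu1
      have a2 : Real.exp (-((K + 3 + H981.mu) * T)) ≤ Real.exp (-(K * Real.log N ^ X.e)) := by
        rw [Real.exp_le_exp]
        have : K * Real.log N ^ X.e ≤ K * T := mul_le_mul_of_nonneg_left hNT hK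
        nlinarith
      exact mul_le_mul a1 a2 (Real.exp_pos _).le (by positivity)
    have e2 := e1.trans hlo
    have e3 : 0 ≤ H981.PP N := le_trans (by positivity) e2
    calc H981.mu ^ n * Real.exp (-((K + 3 + H981.mu) * T)) ≤ H981.PP N := e2
      _ ≤ 4 * (N : ℝ) * H981.PP N := le_mul_of_one_le_left e3 (by linarith)
  · have b1 : 4 * (N : ℝ) ≤ Real.exp (3 * T) := by
      have c1 : (4 : ℝ) * n ≤ Real.exp 2 * Real.exp (Real.log n) := by
        rw [Real.exp_log (by linarith)]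
        have : (4 : ℝ) ≤ Real.exp 2 := by
          have h5 : Real.exp 2 = Real.exp 1 ^ 2 := by rw [← Real.exp_nat_mul]; norm_num
          have h6 := Real.exp_one_gt_d9
          rw [h5]
          nlinarith
        exact mul_le_mul_of_nonneg_right this (by linarith)
      rw [← Real.exp_add] at c1
      refine hN2.trans (c1.trans ?_)
      rw [Real.exp_le_exp]
      linarith
    have b2 : H981.mu ≤ Real.exp (H981.mu * T) := by
      have c2 : H981.mu * 1 ≤ H981.mu * T := mul_le_mul_of_nonneg_left hT1 hmu0.le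
      have c3 := Real.add_one_le_exp (H981.mu * T)
      linarith
    have b3 : Real.exp (K * Real.log N ^ X.e) ≤ Real.exp (K * T) := by
      rw [Real.exp_le_exp]
      exact mul_le_mul_of_nonneg_left hNT hK
    calc 4 * (N : ℝ) * H981.PP N ≤
          4 * (N : ℝ) * (H981.mu ^ (2 * N) * Real.exp (K * Real.log N ^ X.e)) :=
          mul_le_mul_of_nonneg_left hup (by positivity)
      _ = 4 * (N : ℝ) * (H981.mu ^ n * H981.mu * Real.exp (K * Real.log N ^ X.e)) := by rw [hpow]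
      _ ≤ Real.exp (3 * T) * (H981.mu ^ n * Real.exp (H981.mu * T) * Real.exp (K * T)) := by
          gcongr
      _ = H981.mu ^ n * Real.exp ((K + 3 + H981.mu) * T) := by
          rw [show (K + 3 + H981.mu) * T = 3 * T + (H981.mu * T + K * T) by ring, Real.exp_add,
            Real.exp_add]
          ring

private theorem main_log {m : ℕ} (hm : 3 ≤ m) : 1 ≤ Real.log m := by
  have h3 : (3 : ℝ) ≤ m := by exact_mod_cast hm
  rw [Real.le_log_iff_exp_le (by linarith)]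
  have := Real.exp_one_lt_d9
  linarith

private theorem main_pow_one {x : ℝ} (hx : 1 ≤ x) : x ≤ x ^ X.e :=
  le_self_pow₀ hx (by have := X.pos; omega)

private theorem main_cube {m : ℕ} (hm : 3 ≤ m) :
    100 * ((m : ℝ) + 5) ^ 3 ≤ Real.exp (11 * (Real.log m) ^ X.e) := by
  have h3 : (3 : ℝ) ≤ m := by exact_mod_cast hm
  have hm0 : (0 : ℝ) < m := by linarith
  have h1 : 100 * ((m : ℝ) + 5) ^ 3 ≤ 2700 * (m : ℝ) ^ 3 := by
    have h4 : (m : ℝ) + 5 ≤ 3 * m := by linarith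
    have h5 : ((m : ℝ) + 5) ^ 3 ≤ (3 * (m : ℝ)) ^ 3 := pow_le_pow_left₀ (by linarith) h4 3
    nlinarith
  have h8 : (2700 : ℝ) ≤ Real.exp 8 := by
    have e1 : Real.exp 8 = Real.exp 1 ^ 8 := by
      rw [← Real.exp_nat_mul]; norm_num
    rw [e1]
    have e2 : (2.718 : ℝ) ≤ Real.exp 1 := by
      have := Real.exp_one_gt_d9
      linarith
    have e3 : (2.718 : ℝ) ^ 8 ≤ Real.exp 1 ^ 8 := pow_le_pow_left₀ (by norm_num) e2 8
    refine le_trans ?_ e3
    norm_num
  have h6 : (m : ℝ) ^ 3 = Real.exp (3 * Real.log m) := by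
    have : Real.exp (3 * Real.log m) = Real.exp (Real.log m) ^ 3 := by
      rw [← Real.exp_nat_mul]; norm_num
    rw [this, Real.exp_log hm0]
  have h7 : 2700 * (m : ℝ) ^ 3 ≤ Real.exp (8 + 3 * Real.log m) := by
    rw [Real.exp_add, ← h6]
    exact mul_le_mul_of_nonneg_right h8 (by positivity)
  refine h1.trans (h7.trans (Real.exp_le_exp.2 ?_))
  have hl := main_log hm
  have hl9 := main_pow_one hl
  linarith

private theorem main_mem {n : ℕ} {w : List Dir} (hw : w ∈ KP n) :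
    w.length = n ∧ Saw w ∧ sq w = 1 := by
  unfold KP at hw
  rw [mem_filter, mem_SW] at hw
  exact ⟨hw.1.1, hw.1.2, hw.2⟩

theorem MAIN_proof (h1 : S_rate) (h2 : S_bnd) (h3 : S_ratio) : S_main := by
  intro L hL
  obtain ⟨D, hD, hratio⟩ := h3 L hL
  obtain ⟨hmu, K0, hK0, hbnd⟩ := h2
  have hmu1 : (1 : ℝ) ≤ H981.mu := by linarith
  have hmu0 : (0 : ℝ) < H981.mu := by linarith
  obtain ⟨C, hC⟩ := h1 (K0 + 11) D (by linarith) hD
  refine ⟨C, fun n φ hn hodd hnice => ?_⟩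
  -- the window consists of odd numbers at least 3
  have hwin : ∀ m : ℕ, n ≤ 2 * m → m % 2 = n % 2 → 3 ≤ m ∧ m % 2 = 1 := by
    intro m hm1 hm2
    omega
  have hcard : ∀ m : ℕ, n ≤ 2 * m → m ≤ 2 * n → m % 2 = n % 2 →
      ((KP m).card : ℝ) ≤ mm φ m ∧ mm φ m ≤ 100 * ((m : ℝ) + 5) ^ 3 * ((KP m).card : ℝ) := by
    intro m hm1 hm2 hm3
    obtain ⟨h3m, hmodd⟩ := hwin m hm1 hm3
    have hN := hnice m h3m hm1 hm2
    constructor
    · unfold mm
      have : ((KP m).card : ℝ) = ∑ w ∈ KP m, (1 : ℝ) := by simp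
      rw [this]
      refine Finset.sum_le_sum fun w hw => ?_
      obtain ⟨hl, hs, hq⟩ := main_mem hw
      exact hN.one_le w (by omega) (by omega) hs hq
    · unfold mm
      have : 100 * ((m : ℝ) + 5) ^ 3 * ((KP m).card : ℝ) =
          ∑ w ∈ KP m, 100 * ((m : ℝ) + 5) ^ 3 := by
        rw [Finset.sum_const, nsmul_eq_mul]; ring
      rw [this]
      refine Finset.sum_le_sum fun w hw => ?_
      obtain ⟨hl, hs, hq⟩ := main_mem hw
      exact hN.le w (by omega) (by omega) hs hq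
  have key := hC n (fun m => mm φ m / H981.mu ^ m) hn ?_ ?_
  · have e1 : mm φ (n + 2) / (H981.mu ^ 2 * mm φ n) - 1 =
        (fun m => mm φ m / H981.mu ^ m) (n + 2) / (fun m => mm φ m / H981.mu ^ m) n - 1 := by
      have hp : (0 : ℝ) < H981.mu ^ n := by positivity
      simp only
      rw [pow_add]
      by_cases h0 : mm φ n = 0
      · rw [h0]; simp
      · field_simp
    rw [e1]
    exact key
  · intro m hm1 hm2 hm3
    obtain ⟨h3m, hmodd⟩ := hwin m hm1 hm3
    obtain ⟨c1, c2⟩ := hcard m hm1 hm2 hm3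
    obtain ⟨d1, d2⟩ := hbnd m h3m hmodd
    have hp : (0 : ℝ) < H981.mu ^ m := by positivity
    have hl := main_log h3m
    have hl9 : 0 ≤ (Real.log m) ^ X.e := by positivity
    constructor
    · rw [le_div_iff₀ hp]
      have e1 : Real.exp (-((K0 + 11) * (Real.log m) ^ X.e)) ≤
          Real.exp (-(K0 * (Real.log m) ^ X.e)) := by
        apply Real.exp_le_exp.2
        nlinarith
      calc Real.exp (-((K0 + 11) * (Real.log m) ^ X.e)) * H981.mu ^ m
          ≤ Real.exp (-(K0 * (Real.log m) ^ X.e)) * H981.mu ^ m :=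
            mul_le_mul_of_nonneg_right e1 hp.le
        _ = H981.mu ^ m * Real.exp (-(K0 * (Real.log m) ^ X.e)) := by ring
        _ ≤ ((KP m).card : ℝ) := d1
        _ ≤ mm φ m := c1
    · rw [div_le_iff₀ hp]
      have e2 := main_cube h3m
      have e3 : Real.exp ((K0 + 11) * (Real.log m) ^ X.e) =
          Real.exp (11 * (Real.log m) ^ X.e) * Real.exp (K0 * (Real.log m) ^ X.e) := by
        rw [← Real.exp_add]; congr 1; ring
      have hc0 : (0 : ℝ) ≤ ((KP m).card : ℝ) := Nat.cast_nonneg _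
      calc mm φ m ≤ 100 * ((m : ℝ) + 5) ^ 3 * ((KP m).card : ℝ) := c2
        _ ≤ Real.exp (11 * (Real.log m) ^ X.e) * (H981.mu ^ m * Real.exp (K0 * (Real.log m) ^ X.e)) :=
            mul_le_mul e2 d2 hc0 (Real.exp_pos _).le
        _ = Real.exp ((K0 + 11) * (Real.log m) ^ X.e) * H981.mu ^ m := by rw [e3]; ring
  · intro m hm1 hm2 hm3
    obtain ⟨h3m, hmodd⟩ := hwin m hm1 hm3
    have hr := hratio m φ h3m hmodd (hnice m h3m hm1 (by omega))
    have hp : (0 : ℝ) < H981.mu ^ m := by positivity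
    have hm0 : (0 : ℝ) < m := by
      have : (3 : ℝ) ≤ m := by exact_mod_cast h3m
      linarith
    have hmu4 : (1 : ℝ) ≤ H981.mu ^ 4 := one_le_pow₀ hmu1
    have e1 : (mm φ (m + 2) / H981.mu ^ (m + 2)) ^ 2 =
        mm φ (m + 2) ^ 2 / (H981.mu ^ m * H981.mu ^ m * H981.mu ^ 4) := by
      rw [div_pow, ← pow_mul]; congr 1; ring
    have e2 : mm φ m / H981.mu ^ m * (mm φ (m + 4) / H981.mu ^ (m + 4)) =
        mm φ m * mm φ (m + 4) / (H981.mu ^ m * H981.mu ^ m * H981.mu ^ 4) := by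
      rw [div_mul_div_comm]; congr 1; ring
    have e3 : D / m * (mm φ m / H981.mu ^ m) ^ 2 =
        D / m * mm φ m ^ 2 * H981.mu ^ 4 / (H981.mu ^ m * H981.mu ^ m * H981.mu ^ 4) := by
      field_simp
    rw [e1, e2, e3, ← add_div]
    apply div_le_div_of_nonneg_right _ (by positivity)
    refine hr.trans ?_
    have h5 : 0 ≤ D / m * mm φ m ^ 2 := by positivity
    nlinarith

theorem F0_rt_tendsto : Filter.Tendsto rt Filter.atTop (nhds 0) := by
  have h1 : Filter.Tendsto (fun x : ℝ => (Real.log x) ^ X.e / x) Filter.atTop (nhds 0) :=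
    (Real.isLittleO_pow_log_id_atTop (n := X.e)).tendsto_div_nhds_zero
  have h2 := h1.comp (tendsto_natCast_atTop_atTop (R := ℝ))
  have h3 := (Real.continuous_sqrt.tendsto 0).comp h2
  rw [Real.sqrt_zero] at h3
  exact h3

theorem F0_rt_nonneg (n : ℕ) : 0 ≤ rt n := Real.sqrt_nonneg _

theorem F0_rN_nonneg (n : ℕ) : 0 ≤ rN n := Real.sqrt_nonneg _

theorem F0_rt_le (N : ℕ) (hN : 2 ≤ N) : rt (2 * N - 1) ≤ 2 ^ X.e * rN N := by
  unfold rt rN
  have hNr : (2 : ℝ) ≤ N := by exact_mod_cast hN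
  have hcast : ((2 * N - 1 : ℕ) : ℝ) = 2 * N - 1 := by
    rw [Nat.cast_sub (by omega)]; push_cast; ring
  have hlog : Real.log ((2 * N - 1 : ℕ) : ℝ) ≤ 2 * Real.log N := by
    have h1 : ((2 * N - 1 : ℕ) : ℝ) ≤ (N : ℝ) ^ 2 := by rw [hcast]; nlinarith [sq_nonneg ((N : ℝ) - 1)]
    have h2 := Real.log_le_log (by rw [hcast]; linarith) h1
    rw [Real.log_pow] at h2
    exact_mod_cast h2
  have hlog0 : 0 ≤ Real.log ((2 * N - 1 : ℕ) : ℝ) := Real.log_nonneg (by rw [hcast]; linarith)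
  have h3 : (Real.log ((2 * N - 1 : ℕ) : ℝ)) ^ X.e ≤ 2 ^ X.e * (Real.log N) ^ X.e := by
    calc _ ≤ (2 * Real.log N) ^ X.e := pow_le_pow_left₀ hlog0 hlog X.e
      _ = _ := by rw [mul_pow]
  have hlN : 0 ≤ Real.log (N : ℝ) := Real.log_nonneg (by linarith)
  have h2e : (1 : ℝ) ≤ 2 ^ X.e := one_le_pow₀ (by norm_num)
  have h4 : (Real.log ((2 * N - 1 : ℕ) : ℝ)) ^ X.e / ((2 * N - 1 : ℕ) : ℝ) ≤
      (2 ^ X.e) ^ 2 * ((Real.log N) ^ X.e / N) := by
    calc (Real.log ((2 * N - 1 : ℕ) : ℝ)) ^ X.e / ((2 * N - 1 : ℕ) : ℝ)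
        ≤ 2 ^ X.e * (Real.log N) ^ X.e / N := by
          apply div_le_div₀ (by positivity) h3 (by linarith)
          rw [hcast]; linarith
      _ = 1 * 2 ^ X.e * ((Real.log N) ^ X.e / N) := by ring
      _ ≤ 2 ^ X.e * 2 ^ X.e * ((Real.log N) ^ X.e / N) := by gcongr
      _ = _ := by ring
  calc Real.sqrt ((Real.log ((2 * N - 1 : ℕ) : ℝ)) ^ X.e / ((2 * N - 1 : ℕ) : ℝ))
      ≤ Real.sqrt ((2 ^ X.e) ^ 2 * ((Real.log N) ^ X.e / N)) := Real.sqrt_le_sqrt h4
    _ = 2 ^ X.e * Real.sqrt ((Real.log N) ^ X.e / N) := by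
        rw [Real.sqrt_mul (by positivity), Real.sqrt_sq (by positivity)]

theorem F0_card_pos (hb : S_bnd) (n : ℕ) (hn : 3 ≤ n) (hodd : n % 2 = 1) : 0 < ((KP n).card : ℝ) := by
  obtain ⟨hmu, K, _, h⟩ := hb
  have hmu0 : 0 < H981.mu := by linarith
  refine lt_of_lt_of_le ?_ (h n hn hodd).1
  positivity

open Pool.Agent.H739K in
theorem F0_proof (h : S_main) (hb : S_bnd) : S_F0 := by
  intro L hL
  obtain ⟨C1, hC1⟩ := h L hL
  obtain ⟨C2, hC2⟩ := h 0 le_rfl
  have hmu : 0 < H981.mu := by linarith [hb.1]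
  -- nonnegative constants
  set K1 := max C1 0 with hK1
  set K2 := max C2 1 with hK2
  have hK1' : 0 ≤ K1 := le_max_right _ _
  have hK2' : 1 ≤ K2 := le_max_right _ _
  have hK2pos : 0 < K2 := by linarith
  obtain ⟨n0, hn0⟩ : ∃ n0 : ℕ, ∀ n ≥ n0, rt n < 1 / (2 * K2) := by
    have := F0_rt_tendsto.eventually (gt_mem_nhds (show (0 : ℝ) < 1 / (2 * K2) by positivity))
    exact Filter.eventually_atTop.1 this
  obtain ⟨r2, hr2⟩ : ∃ r2 : ℕ → ℝ, ∀ n, r2 n = ((KP (n + 2)).card : ℝ) / (H981.mu ^ 2 * ((KP n).card : ℝ)) :=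
    ⟨_, fun _ => rfl⟩
  have hr2nn : ∀ n, 0 ≤ r2 n := fun n => by rw [hr2]; positivity
  set M : ℝ := ∑ n ∈ Finset.range n0, 1 / r2 n with hM
  have hM0 : 0 ≤ M := Finset.sum_nonneg fun n _ => one_div_nonneg.2 (hr2nn n)
  set C3 : ℝ := 2 * (K1 + K2) + (2 * K2 + K1) * M + 2 * K2 with hC3
  have hC30 : 0 ≤ C3 := by positivity
  refine ⟨C3 * 2 ^ X.e, ?_⟩
  intro N φ hN hnice
  have hrt := F0_rt_le N hN
  obtain ⟨n, hn⟩ : ∃ n, n = 2 * N - 1 := ⟨_, rfl⟩
  have hn2 : 2 * N + 1 = n + 2 := by omega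
  have hn3 : 3 ≤ n := by omega
  have hodd : n % 2 = 1 := by omega
  rw [hn2, ← hn]
  rw [← hn] at hrt
  have hcn := F0_card_pos hb n hn3 hodd
  have hcn2 := F0_card_pos hb (n + 2) (by omega) (by omega)
  have hniceN := hnice n hn3 (by omega) (by omega)
  have hmn := F0_mm_pos hniceN le_rfl (by omega) hcn
  have hmn2 := F0_mm_pos hniceN (show n ≤ n + 2 by omega) (by omega) hcn2
  obtain ⟨r1, hr1⟩ : ∃ r1 : ℝ, r1 = mm φ (n + 2) / (H981.mu ^ 2 * mm φ n) := ⟨_, rfl⟩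
  have hr1pos : 0 < r1 := by rw [hr1]; positivity
  have hr2pos : 0 < r2 n := by rw [hr2]; positivity
  have e1 : |r1 - 1| ≤ K1 * rt n := by
    rw [hr1]
    refine (hC1 n φ hn3 hodd (fun m h3 h4 h5 => hnice m h3 (by omega) (by omega))).trans ?_
    exact mul_le_mul_of_nonneg_right (le_max_left _ _) (F0_rt_nonneg n)
  have e2 : |r2 n - 1| ≤ K2 * rt n := by
    have := hC2 n (fun _ => 1) hn3 hodd (fun m _ _ _ => F0_nice_one m)
    rw [F0_mm_one, F0_mm_one, ← hr2] at this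
    exact this.trans (mul_le_mul_of_nonneg_right (le_max_left _ _) (F0_rt_nonneg n))
  have eQ : (mm φ (n + 2) / ((KP (n + 2)).card : ℝ)) / (mm φ n / ((KP n).card : ℝ)) = r1 / r2 n := by
    rw [hr1, hr2]
    generalize mm φ (n + 2) = x1 at *
    generalize mm φ n = x2 at *
    generalize ((KP (n + 2)).card : ℝ) = x3 at *
    generalize ((KP n).card : ℝ) = x4 at *
    generalize H981.mu = x5 at *
    field_simp
  rw [eQ]
  have hrt0 := F0_rt_nonneg n
  have key : |r1 / r2 n - 1| ≤ C3 * rt n := by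
    by_cases hc : K2 * rt n ≤ 1 / 2
    · have h5 : 1 / 2 ≤ r2 n := by
        have := (abs_le.1 e2).1
        linarith
      have h6 : |r1 / r2 n - 1| = |r1 - r2 n| / r2 n := by
        rw [← abs_of_pos hr2pos, ← abs_div, abs_of_pos hr2pos, sub_div, div_self hr2pos.ne']
      rw [h6]
      have h7 : |r1 - r2 n| ≤ (K1 + K2) * rt n := by
        have : r1 - r2 n = (r1 - 1) - (r2 n - 1) := by ring
        rw [this]
        refine (abs_sub _ _).trans ?_
        linarith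
      calc |r1 - r2 n| / r2 n ≤ ((K1 + K2) * rt n) / (1 / 2) := by
            apply div_le_div₀ (by positivity) h7 (by norm_num) h5
        _ = 2 * (K1 + K2) * rt n := by ring
        _ ≤ C3 * rt n := by
            apply mul_le_mul_of_nonneg_right _ hrt0
            rw [hC3]
            have : 0 ≤ (2 * K2 + K1) * M := by positivity
            linarith
    · push Not at hc
      have hnn0 : n < n0 := by
        by_contra h7
        push Not at h7
        have h8 := hn0 n h7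
        rw [lt_div_iff₀ (by positivity)] at h8
        linarith
      have hM1 : 1 / r2 n ≤ M :=
        Finset.single_le_sum (f := fun n => 1 / r2 n) (fun i _ => one_div_nonneg.2 (hr2nn i)) (Finset.mem_range.2 hnn0)
      have h1 : 1 ≤ 2 * K2 * rt n := by linarith
      have h2 : r1 ≤ (2 * K2 + K1) * rt n := by
        have := (abs_le.1 e1).2
        linarith
      have h3 : |r1 / r2 n - 1| ≤ r1 / r2 n + 1 := by
        have : 0 ≤ r1 / r2 n := by positivity
        rw [abs_le]; constructor <;> linarith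
      refine h3.trans ?_
      have h4 : r1 / r2 n ≤ ((2 * K2 + K1) * rt n) * M := by
        rw [div_eq_mul_one_div]
        exact mul_le_mul h2 hM1 (by positivity) (by positivity)
      rw [hC3]
      have h5 : 0 ≤ (K1 + K2) * rt n := by positivity
      nlinarith
  refine key.trans ?_
  rw [mul_assoc]
  exact mul_le_mul_of_nonneg_left hrt hC30

lemma rN_eq (n : ℕ) : rN n = Real.sqrt ((Real.log n) ^ X.e / n) := rfl

lemma one_div_le_rN : ∃ c : ℝ, 0 ≤ c ∧ ∀ n : ℕ, 2 ≤ n → 1 / (n : ℝ) ≤ c * rN n := by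
  refine ⟨(Real.sqrt (Real.log 2 ^ X.e))⁻¹, by positivity, fun n hn => ?_⟩
  have hn' : (2 : ℝ) ≤ n := by exact_mod_cast hn
  have hl : 0 < Real.log 2 := Real.log_pos (by norm_num)
  have hln : Real.log 2 ≤ Real.log n := Real.log_le_log (by norm_num) hn'
  have hs : 0 < Real.sqrt (Real.log 2 ^ X.e) := by positivity
  rw [rN_eq n, ← div_eq_inv_mul, le_div_iff₀ hs]
  calc 1 / (n : ℝ) * Real.sqrt (Real.log 2 ^ X.e)
      = Real.sqrt ((1 / (n : ℝ)) ^ 2 * Real.log 2 ^ X.e) := by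
        rw [Real.sqrt_mul (by positivity), Real.sqrt_sq (by positivity)]
    _ ≤ Real.sqrt (Real.log n ^ X.e / n) := by
        apply Real.sqrt_le_sqrt
        have h1 : (1 / (n : ℝ)) ^ 2 ≤ 1 / n := by
          rw [div_pow, one_pow]
          apply one_div_le_one_div_of_le (by linarith)
          nlinarith
        calc (1 / (n : ℝ)) ^ 2 * Real.log 2 ^ X.e ≤ 1 / n * Real.log n ^ X.e := by gcongr
          _ = Real.log n ^ X.e / n := by ring

lemma inv_le_rN : ∃ c : ℝ, 0 ≤ c ∧ ∀ N : ℕ, 2 ≤ N → 1 / ((N : ℝ) + 1) ≤ c * rN N := by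
  obtain ⟨c, hc, h⟩ := one_div_le_rN
  refine ⟨c, hc, fun N hN => le_trans ?_ (h N hN)⟩
  have : (0 : ℝ) < N := by exact_mod_cast (by omega : 0 < N)
  exact one_div_le_one_div_of_le this (by linarith)

theorem F1_proof (h : S_main) (_hb : S_bnd) (hc : S_conv) : S_F1 := by
  obtain ⟨C, hC⟩ := h 0 le_rfl
  obtain ⟨c, hc0, hcc⟩ := inv_le_rN
  refine ⟨H981.mu ^ 2 * (2 ^ X.e * |C| + c), ?_⟩
  intro N hN
  have hmu := H981.mu_pos
  have h1 := hC (2 * N - 1) (fun _ => 1) (by omega) (by omega) (fun m _ _ _ => nice_one m)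
  have e1 : 2 * N - 1 + 2 = 2 * (N + 1) - 1 := by omega
  have e2 : ∀ n, mm (fun _ => 1) n = ((KP n).card : ℝ) := by
    intro n
    unfold mm
    simp
  rw [e2, e2, e1, card_KP_eq hc hN, card_KP_eq hc (by omega : 2 ≤ N + 1)] at h1
  have hp := PP_pos' hN
  have hp' := PP_pos' (by omega : 2 ≤ N + 1)
  have hNr : (2 : ℝ) ≤ N := by exact_mod_cast hN
  have hr : rt (2 * N - 1) ≤ 2 ^ X.e * rN N := F0_rt_le N hN
  have hi := hcc N hN
  have hrt : 0 ≤ rt (2 * N - 1) := Real.sqrt_nonneg _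
  have h2 : C * rt (2 * N - 1) ≤ |C| * (2 ^ X.e * rN N) :=
    (mul_le_mul_of_nonneg_right (le_abs_self C) hrt).trans
      (mul_le_mul_of_nonneg_left hr (abs_nonneg C))
  set x := H981.PP (N + 1) / H981.PP N with hx
  have e3 : 4 * ((N + 1 : ℕ) : ℝ) * H981.PP (N + 1) / (H981.mu ^ 2 * (4 * (N : ℝ) * H981.PP N)) =
      x / H981.mu ^ 2 * (((N : ℝ) + 1) / N) := by
    rw [hx]
    push_cast
    field_simp
  rw [e3] at h1
  have h3 := h1.trans h2
  -- x / mu^2 = (N/(N+1)) * r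
  have e4 : x - H981.mu ^ 2 = H981.mu ^ 2 * (((N : ℝ) / (N + 1)) *
      (x / H981.mu ^ 2 * (((N : ℝ) + 1) / N) - 1) - 1 / ((N : ℝ) + 1)) := by
    field_simp
    ring
  rw [e4, abs_mul, abs_of_pos (by positivity : 0 < H981.mu ^ 2), mul_assoc]
  refine mul_le_mul_of_nonneg_left ?_ (by positivity)
  have h4 : |((N : ℝ) / (N + 1)) * (x / H981.mu ^ 2 * (((N : ℝ) + 1) / N) - 1)| ≤
      |C| * (2 ^ X.e * rN N) := by
    rw [abs_mul, abs_of_nonneg (by positivity : 0 ≤ (N : ℝ) / (N + 1))]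
    have h5 : (N : ℝ) / (N + 1) ≤ 1 := by
      rw [div_le_one (by linarith)]
      linarith
    have h6 := abs_nonneg (x / H981.mu ^ 2 * (((N : ℝ) + 1) / N) - 1)
    nlinarith
  have h7 : |1 / ((N : ℝ) + 1)| ≤ c * rN N := by
    rw [abs_of_nonneg (by positivity)]
    exact hi
  have h8 := abs_sub (((N : ℝ) / (N + 1)) * (x / H981.mu ^ 2 * (((N : ℝ) + 1) / N) - 1))
    (1 / ((N : ℝ) + 1))
  nlinarith

open Pool.Agent.H739K.F2aux in
theorem F2_proof (h0 : S_F0) (hc : S_conv) (ha : S_area) (h2 : S_F2a) : S_F2 := by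
  obtain ⟨C, hC⟩ := h0 6 (by norm_num)
  obtain ⟨c, hc0, hcc⟩ := one_div_le_rN
  refine ⟨5 * C + 4 * c, fun N hN => ?_⟩
  have h1 := hC N ph hN (fun m hm _ _ => nice hc ha m hm)
  rw [mean_eq hc h2 N hN] at h1
  have e1 := mean_eq hc h2 (N + 1) (by omega)
  have e2 : 2 * (N + 1) - 1 = 2 * N + 1 := by omega
  rw [e2] at e1
  rw [e1] at h1
  have hA := h2 N hN
  have hN' : (2 : ℝ) ≤ N := by exact_mod_cast hN
  have hA0 : 0 < MA N := by linarith
  have hB0 : 0 < MA N + (2 * N - 1) := by linarith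
  push_cast at h1
  set A := MA N with hAdef
  set A' := MA (N + 1) with hA'def
  set δ : ℝ := (A' + (2 * ((N : ℝ) + 1) - 1)) / (A + (2 * N - 1)) - 1 with hδ
  have h3 : A' - A = (A + (2 * N - 1)) * δ - 2 := by
    rw [hδ]
    field_simp
    ring
  have h4 : A' / A - 1 = (A + (2 * N - 1)) / A * δ - 2 / A := by
    have : A' / A - 1 = (A' - A) / A := by field_simp
    rw [this, h3]
    ring
  have h5 : (A + (2 * N - 1)) / A ≤ 5 := by
    rw [div_le_iff₀ hA0]
    linarith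
  have h5' : 0 ≤ (A + (2 * N - 1)) / A := by positivity
  have h6 : 2 / A ≤ 4 * (1 / (N : ℝ)) := by
    rw [div_le_iff₀ hA0]
    have : 4 * (1 / (N : ℝ)) * (N / 2) = 2 := by field_simp; norm_num
    calc (2 : ℝ) = 4 * (1 / (N : ℝ)) * (N / 2) := this.symm
      _ ≤ _ := mul_le_mul_of_nonneg_left hA (by positivity)
  have h7 := hcc N hN
  have h8 : 0 ≤ 2 / A := by positivity
  rw [h4]
  calc |(A + (2 * N - 1)) / A * δ - 2 / A| ≤ |(A + (2 * N - 1)) / A * δ| + |2 / A| := abs_sub _ _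
    _ = (A + (2 * N - 1)) / A * |δ| + 2 / A := by rw [abs_mul, abs_of_nonneg h5', abs_of_nonneg h8]
    _ ≤ 5 * (C * rN N) + 4 * (c * rN N) := by
      apply add_le_add
      · exact mul_le_mul h5 h1 (abs_nonneg _) (by norm_num)
      · linarith
    _ = _ := by ring

theorem F3_proof (h0 : S_F0) (hc : S_conv) (hb : S_box) (hs : S_swap) : S_F3 := by
  obtain ⟨C, hC⟩ := h0 6 (by norm_num)
  refine ⟨C, fun N hN => ?_⟩
  have h1 := hC N (fun w => (bx w : ℝ)) hN (fun m h3 _ _ => F3x.nice hb m h3)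
  have h2 := F3x.mean_eq hc hs hN
  have h3 := F3x.mean_eq hc hs (N := N + 1) (by omega)
  have e : 2 * (N + 1) - 1 = 2 * N + 1 := by omega
  rw [e] at h3
  rw [h2, h3, mul_div_mul_left _ _ (by norm_num : (2 : ℝ) ≠ 0)] at h1
  exact h1


open Pool.Agent.H739K.F4x in
theorem F4_proof (h0 : S_F0) (hc : S_conv) (ha : S_area) (h2a : S_F2a) (h2 : S_F2) : S_F4 := by
  obtain ⟨C, hC⟩ := h0 40 (by norm_num)
  obtain ⟨C2, hC2⟩ := h2
  refine ⟨3 * C + C2, fun N hN g hg hg1 => ?_⟩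
  have haN := h2a N hN
  have haN1 := h2a (N + 1) (by omega)
  have hN' : (2 : ℝ) ≤ N := by exact_mod_cast hN
  set a := MA N with hadef
  set a' := MA (N + 1) with ha'def
  have ha0 : 0 < a := by linarith
  have ha'0 : 0 < a' := by push_cast at haN1; linarith
  have h1 := hC N (ph g a) hN (fun m h3 h4 _ => nice ha hN haN hg hg1 m h3 h4)
  have e : 2 * (N + 1) - 1 = 2 * N + 1 := by omega
  have m1 := mean_ph hc h2a hN g a
  have m2 := mean_ph hc h2a (N := N + 1) (by omega) g a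
  rw [e] at m2
  rw [m1, m2] at h1
  set x := me N (fun f => g ((area (2 * N) f : ℝ) / a)) with hx
  set y := me (N + 1) (fun f => g ((area (2 * (N + 1)) f : ℝ) / a)) with hy
  have hx1 : |x| ≤ 1 := me_abs_le hc h2a hN _ 1 fun f => hg1 _
  have hx2 := abs_le.mp hx1
  have hpos : 0 < 2 + x := by linarith [hx2.1]
  have h3 : |y - x| ≤ 3 * C * rN N := by
    have h4 : (2 + y) / (2 + x) - 1 = (y - x) / (2 + x) := by
      field_simp
      ring
    rw [h4, abs_div, abs_of_pos hpos, div_le_iff₀ hpos] at h1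
    have h5 : 0 ≤ C * rN N := by
      by_contra hneg
      push Not at hneg
      have := abs_nonneg (y - x)
      nlinarith
    nlinarith [hx2.2]
  have h4 : |me (N + 1) (fun f => g ((area (2 * (N + 1)) f : ℝ) / a')) - y| ≤ C2 * rN N := by
    rw [hy, me_sub hc (by omega)]
    have h5 : me (N + 1) (fun f => ((area (2 * (N + 1)) f : ℝ)) * (|a' / a - 1| / a')) =
        |a' / a - 1| := by
      rw [me_mul hc (by omega)]
      change a' * (|a' / a - 1| / a') = _
      rw [mul_div_cancel₀ _ ha'0.ne']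
    refine le_trans (me_abs_le_me hc h2a (by omega) _
      (fun f => ((area (2 * (N + 1)) f : ℝ)) * (|a' / a - 1| / a')) fun f => ?_) ?_
    · refine (hg _ _).trans (le_of_eq ?_)
      have h6 : (area (2 * (N + 1)) f : ℝ) / a' - (area (2 * (N + 1)) f : ℝ) / a =
          -(((area (2 * (N + 1)) f : ℝ) / a') * (a' / a - 1)) := by
        field_simp
        ring
      rw [h6, abs_neg, abs_mul, abs_of_nonneg (by positivity)]
      ring
    · rw [h5]
      exact hC2 N hN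
  calc |me (N + 1) (fun f => g ((area (2 * (N + 1)) f : ℝ) / a')) - x|
      = |(me (N + 1) (fun f => g ((area (2 * (N + 1)) f : ℝ) / a')) - y) + (y - x)| := by
        congr 1; ring
    _ ≤ C2 * rN N + 3 * C * rN N := (abs_add_le _ _).trans (add_le_add h4 h3)
    _ = (3 * C + C2) * rN N := by ring


/-- `m^β rN(m) → 0` for `β < 1/2` -/
lemma pow_mul_rN {β : ℝ} (hβ : β < 1 / 2) :
    Tendsto (fun m : ℕ => (m : ℝ) ^ β * rN m) atTop (𝓝 0) := by
  have h1 : Tendsto (fun x : ℝ => Real.sqrt (Real.log x ^ X.e / x ^ (1 - 2 * β))) atTop (𝓝 0) := by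
    have h2 : Tendsto (fun x : ℝ => Real.log x ^ X.e / x ^ (1 - 2 * β)) atTop (𝓝 0) := by
      have h3 := (isLittleO_log_rpow_rpow_atTop (s := 1 - 2 * β) X.e (by linarith)).tendsto_div_nhds_zero
      refine h3.congr (fun x => ?_)
      norm_num
    have := (Real.continuous_sqrt.tendsto 0).comp h2
    rw [Real.sqrt_zero] at this
    exact this
  have h4 := h1.comp (tendsto_natCast_atTop_atTop (R := ℝ))
  refine h4.congr' ?_
  filter_upwards [eventually_ge_atTop 1] with m hm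
  have hm' : (0 : ℝ) < m := by exact_mod_cast hm
  simp only [Function.comp]
  rw [rN_eq]
  have h5 : (m : ℝ) ^ β = Real.sqrt ((m : ℝ) ^ (2 * β)) := by
    rw [mul_comm 2 β, Real.rpow_mul hm'.le, ← Real.sqrt_sq (Real.rpow_nonneg hm'.le β)]
    norm_num
  rw [h5, ← Real.sqrt_mul (by positivity)]
  congr 1
  rw [Real.rpow_sub hm', Real.rpow_one]
  field_simp

/-- late values are close to values at a late term of the sparse sequence -/
theorem sparse_close (v : ℕ → ℝ) (C : ℝ) (hC : 0 ≤ C)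
    (h : ∀ᶠ n : ℕ in atTop, |v (n + 1) - v n| ≤ C * rN n)
    (s : ℕ → ℕ) (hs : Tendsto s atTop atTop) (β : ℝ) (hβ : β < 1 / 2)
    (hgap : ∀ k, (s (k + 1) : ℝ) ≤ s k + (s k : ℝ) ^ β) (ε : ℝ) (hε : 0 < ε) (k0 : ℕ) :
    ∃ N0 : ℕ, ∀ n, N0 ≤ n → ∃ k, k0 ≤ k ∧ s k ≤ n ∧ n ≤ 2 * s k ∧ |v n - v (s k)| < ε / 2 := by
  -- `rN` is eventually decreasing up to a factor
  have hr : ∀ᶠ m : ℕ in atTop, ∀ j : ℕ, m ≤ j → j ≤ 2 * m → rN j ≤ 2 ^ X.e * rN m := by
    filter_upwards [eventually_ge_atTop 2] with m hm j hj hj2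
    have hm' : (2 : ℝ) ≤ m := by exact_mod_cast hm
    have hjm : (m : ℝ) ≤ j := by exact_mod_cast hj
    have hj2' : (j : ℝ) ≤ 2 * m := by exact_mod_cast hj2
    rw [rN_eq, rN_eq]
    have hl0 : 0 < Real.log m := Real.log_pos (by linarith)
    have hlog : Real.log j ≤ 2 * Real.log m := by
      calc Real.log j ≤ Real.log (m ^ 2) := by
            apply Real.log_le_log (by linarith)
            nlinarith
        _ = 2 * Real.log m := by rw [Real.log_pow]; norm_num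
    have hlj : 0 ≤ Real.log j := Real.log_nonneg (by linarith)
    have h1 : Real.log j ^ X.e / j ≤ (2 ^ X.e) ^ 2 * (Real.log m ^ X.e / m) := by
      calc Real.log j ^ X.e / j ≤ (2 * Real.log m) ^ X.e / m := by gcongr
        _ = 2 ^ X.e * (Real.log m ^ X.e / m) := by ring
        _ = 1 * 2 ^ X.e * (Real.log m ^ X.e / m) := by ring
        _ ≤ 2 ^ X.e * 2 ^ X.e * (Real.log m ^ X.e / m) := by
            have h2e : (1 : ℝ) ≤ 2 ^ X.e := one_le_pow₀ (by norm_num)
            gcongr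
        _ = (2 ^ X.e) ^ 2 * (Real.log m ^ X.e / m) := by ring
    calc Real.sqrt (Real.log j ^ X.e / j) ≤ Real.sqrt ((2 ^ X.e) ^ 2 * (Real.log m ^ X.e / m)) :=
          Real.sqrt_le_sqrt h1
      _ = 2 ^ X.e * Real.sqrt (Real.log m ^ X.e / m) := by
          rw [Real.sqrt_mul (by positivity), Real.sqrt_sq (by positivity)]
  have hsm := (pow_mul_rN hβ).eventually_lt_const (show (0 : ℝ) < ε / (4 * (C + 1) * 2 ^ X.e) by positivity)
  have hall := (h.and (hr.and (hsm.and (eventually_ge_atTop 2))))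
  obtain ⟨M, hM⟩ := eventually_atTop.mp hall
  -- bound for `s` on the first indices
  obtain ⟨B, hB⟩ : ∃ B : ℕ, ∀ k ≤ k0, s k ≤ B :=
    ⟨(Finset.range (k0 + 1)).sup s, fun k hk => Finset.le_sup (Finset.mem_range.mpr (by omega))⟩
  refine ⟨2 * (B + M + s 0 + 2), fun n hn => ?_⟩
  -- first index with `s k > n`
  have hex : ∃ k, n < s k := by
    obtain ⟨k, hk⟩ := (hs.eventually_gt_atTop n).exists
    exact ⟨k, hk⟩
  classical
  have hk1 := Nat.find_spec hex
  have hk2 : ∀ k, k < Nat.find hex → ¬ n < s k := fun k hk => Nat.find_min hex hk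
  set k' := Nat.find hex with hk'
  have hk'0 : k' ≠ 0 := by
    intro h0
    rw [h0] at hk1
    omega
  obtain ⟨k, hkk⟩ : ∃ k, k' = k + 1 := ⟨k' - 1, by omega⟩
  rw [hkk] at hk1
  have hsk : s k ≤ n := by
    have := hk2 k (by omega)
    omega
  -- `s k` is at least `n / 2`
  have hg := hgap k
  have hn1 : (n : ℝ) < s (k + 1) := by exact_mod_cast hk1
  have hsk1 : 1 ≤ s k := by
    by_contra hcon
    have h0 : s k = 0 := by omega
    rw [h0] at hg
    have h2 : ((0 : ℕ) : ℝ) ^ β ≤ 1 := by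
      rw [Nat.cast_zero]
      exact Real.zero_rpow_le_one β
    have : (n : ℝ) < 1 := by
      calc (n : ℝ) < s (k + 1) := hn1
        _ ≤ ((0 : ℕ) : ℝ) + ((0 : ℕ) : ℝ) ^ β := hg
        _ ≤ 1 := by simpa using h2
    have h3 : n < 1 := by exact_mod_cast this
    omega
  have hsk1' : (1 : ℝ) ≤ s k := by exact_mod_cast hsk1
  have hpow : (s k : ℝ) ^ β ≤ s k := by
    calc (s k : ℝ) ^ β ≤ (s k : ℝ) ^ (1 : ℝ) := Real.rpow_le_rpow_of_exponent_le hsk1' (by linarith)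
      _ = s k := Real.rpow_one _
  have hn2 : n ≤ 2 * s k := by
    have : (n : ℝ) < 2 * s k := by linarith
    have : n < 2 * s k := by exact_mod_cast this
    omega
  have hkM : M ≤ s k := by omega
  have hkk0 : k0 ≤ k := by
    by_contra hcon
    have := hB k (by omega)
    omega
  obtain ⟨-, hr', hsm', hM2⟩ := hM (s k) hkM
  -- telescoping
  have htel : ∀ j : ℕ, s k + j ≤ n → |v (s k + j) - v (s k)| ≤ j * (C * (2 ^ X.e * rN (s k))) := by
    intro j
    induction j with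
    | zero => intro _; simp
    | succ j ih =>
      intro hj
      have h1 := ih (by omega)
      have h2 := (hM (s k + j) (by omega)).1
      have h3 := hr' (s k + j) (by omega) (by omega)
      have h4 : |v (s k + (j + 1)) - v (s k + j)| ≤ C * (2 ^ X.e * rN (s k)) :=
        h2.trans (mul_le_mul_of_nonneg_left h3 hC)
      calc |v (s k + (j + 1)) - v (s k)|
          ≤ |v (s k + (j + 1)) - v (s k + j)| + |v (s k + j) - v (s k)| := abs_sub_le _ _ _
        _ ≤ C * (2 ^ X.e * rN (s k)) + j * (C * (2 ^ X.e * rN (s k))) := add_le_add h4 h1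
        _ = ((j + 1 : ℕ) : ℝ) * (C * (2 ^ X.e * rN (s k))) := by push_cast; ring
  have h1 := htel (n - s k) (by omega)
  have e1 : s k + (n - s k) = n := by omega
  rw [e1] at h1
  have hdiff : ((n - s k : ℕ) : ℝ) ≤ (s k : ℝ) ^ β := by
    rw [Nat.cast_sub hsk]
    linarith
  have hrn : 0 ≤ rN (s k) := Real.sqrt_nonneg _
  have h2 : |v n - v (s k)| < ε / 2 := by
    calc |v n - v (s k)| ≤ ((n - s k : ℕ) : ℝ) * (C * (2 ^ X.e * rN (s k))) := h1
      _ ≤ (s k : ℝ) ^ β * (C * (2 ^ X.e * rN (s k))) := by gcongr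
      _ ≤ (s k : ℝ) ^ β * ((C + 1) * (2 ^ X.e * rN (s k))) := by gcongr; linarith
      _ = ((C + 1) * 2 ^ X.e) * ((s k : ℝ) ^ β * rN (s k)) := by ring
      _ ≤ ((C + 1) * 2 ^ X.e) * (ε / (4 * (C + 1) * 2 ^ X.e)) := by gcongr
      _ = ε / 4 := by field_simp
      _ < ε / 2 := by linarith
  exact ⟨k, hkk0, hsk, hn2, h2⟩

/-- additive version -/
theorem sparse_add (v : ℕ → ℝ) (C : ℝ) (hC : 0 ≤ C)
    (h : ∀ᶠ n : ℕ in atTop, |v (n + 1) - v n| ≤ C * rN n)
    (s : ℕ → ℕ) (hs : Tendsto s atTop atTop) (β : ℝ) (hβ : β < 1 / 2)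
    (hgap : ∀ k, (s (k + 1) : ℝ) ≤ s k + (s k : ℝ) ^ β) (c : ℝ)
    (hc : Tendsto (fun k => v (s k)) atTop (𝓝 c)) : Tendsto v atTop (𝓝 c) := by
  rw [Metric.tendsto_atTop]
  intro ε hε
  obtain ⟨k0, hk0⟩ := (Metric.tendsto_atTop.mp hc) (ε / 2) (by positivity)
  obtain ⟨N0, hN0⟩ := sparse_close v C hC h s hs β hβ hgap ε hε k0
  refine ⟨N0, fun n hn => ?_⟩
  obtain ⟨k, hk, -, -, h2⟩ := hN0 n hn
  have h3 := hk0 k hk
  rw [Real.dist_eq] at h3 ⊢
  calc |v n - c| ≤ |v n - v (s k)| + |v (s k) - c| := abs_sub_le _ _ _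
    _ < ε / 2 + ε / 2 := add_lt_add h2 h3
    _ = ε := by ring

/-- logarithms of nearly constant ratios -/
theorem log_step (u : ℕ → ℝ) (C : ℝ) (hC : 0 ≤ C) (hu : ∀ n : ℕ, 2 ≤ n → 0 < u n)
    (h : ∀ n : ℕ, 2 ≤ n → |u (n + 1) / u n - 1| ≤ C * rN n) :
    ∀ᶠ n : ℕ in atTop, |Real.log (u (n + 1)) - Real.log (u n)| ≤ (2 * C) * rN n := by
  have h0 : Tendsto (fun m : ℕ => rN m) atTop (𝓝 0) := by
    have := pow_mul_rN (β := 0) (by norm_num)
    simpa using this
  filter_upwards [h0.eventually_lt_const (show (0 : ℝ) < 1 / (2 * (C + 1)) by positivity),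
    eventually_ge_atTop 2] with n hn hn2
  have h2 := h n hn2
  have p1 := hu n hn2
  have p2 := hu (n + 1) (by omega)
  have hrn : 0 ≤ rN n := Real.sqrt_nonneg _
  have h3 : C * rN n ≤ 1 / 2 := by
    calc C * rN n ≤ (C + 1) * rN n := by gcongr; linarith
      _ ≤ (C + 1) * (1 / (2 * (C + 1))) := by gcongr
      _ = 1 / 2 := by field_simp
  rw [← Real.log_div p2.ne' p1.ne']
  obtain ⟨x, hx⟩ : ∃ x, x = u (n + 1) / u n - 1 := ⟨_, rfl⟩
  have hx1 : u (n + 1) / u n = 1 + x := by rw [hx]; ring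
  rw [← hx] at h2
  rw [hx1]
  have hxa : |x| ≤ 1 / 2 := h2.trans h3
  obtain ⟨ha, hb⟩ := abs_le.mp hxa
  have hpos : 0 < 1 + x := by linarith
  have up : Real.log (1 + x) ≤ x := by
    have := Real.log_le_sub_one_of_pos hpos; linarith
  have lo : x / (1 + x) ≤ Real.log (1 + x) := by
    have h4 := Real.one_sub_inv_le_log_of_pos hpos
    have e : 1 - (1 + x)⁻¹ = x / (1 + x) := by field_simp; ring
    linarith
  have h5 : |Real.log (1 + x)| ≤ 2 * |x| := by
    rw [abs_le]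
    constructor
    · have : -(2 * |x|) ≤ x / (1 + x) := by
        rw [le_div_iff₀ hpos]
        rcases abs_cases x with ⟨e, _⟩ | ⟨e, _⟩ <;> rw [e] <;> nlinarith
      linarith
    · have := le_abs_self x
      have := abs_nonneg x
      linarith
  calc |Real.log (1 + x)| ≤ 2 * |x| := h5
    _ ≤ 2 * (C * rN n) := by gcongr
    _ = _ := by ring

/-- multiplicative version -/
theorem sparse_mul (u : ℕ → ℝ) (C : ℝ) (hC : 0 ≤ C) (hu : ∀ n : ℕ, 2 ≤ n → 0 < u n)
    (h : ∀ n : ℕ, 2 ≤ n → |u (n + 1) / u n - 1| ≤ C * rN n)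
    (s : ℕ → ℕ) (hs : Tendsto s atTop atTop) (β : ℝ) (hβ : β < 1 / 2)
    (hgap : ∀ k, (s (k + 1) : ℝ) ≤ s k + (s k : ℝ) ^ β) (c : ℝ) (hc0 : 0 < c)
    (hc : Tendsto (fun k => u (s k)) atTop (𝓝 c)) : Tendsto u atTop (𝓝 c) := by
  have h2 : Tendsto (fun k => Real.log (u (s k))) atTop (𝓝 (Real.log c)) :=
    (Real.continuousAt_log hc0.ne').tendsto.comp hc
  have h3 := sparse_add (fun n => Real.log (u n)) (2 * C) (by positivity)
    (log_step u C hC hu h) s hs β hβ hgap (Real.log c) h2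
  have h4 := (Real.continuous_exp.tendsto (Real.log c)).comp h3
  rw [Real.exp_log hc0] at h4
  refine h4.congr' ?_
  filter_upwards [eventually_ge_atTop 2] with n hn
  exact Real.exp_log (hu n hn)

/-- two-sided bounds along a sparse sequence give two-sided bounds -/
theorem sparse_bounds (u : ℕ → ℝ) (C : ℝ) (hC : 0 ≤ C) (hu : ∀ n : ℕ, 2 ≤ n → 0 < u n)
    (h : ∀ n : ℕ, 2 ≤ n → |u (n + 1) / u n - 1| ≤ C * rN n)
    (s : ℕ → ℕ) (hs : Tendsto s atTop atTop) (β : ℝ) (hβ : β < 1 / 2)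
    (hgap : ∀ k, (s (k + 1) : ℝ) ≤ s k + (s k : ℝ) ^ β) (a b θ : ℝ) (ha : 0 < a) (hθ : 0 ≤ θ)
    (hab : ∀ᶠ k in atTop, a * (s k : ℝ) ^ θ ≤ u (s k) ∧ u (s k) ≤ b * (s k : ℝ) ^ θ) :
    ∀ᶠ n : ℕ in atTop, a / 2 ^ (θ + 1) * (n : ℝ) ^ θ ≤ u n ∧ u n ≤ 2 * b * (n : ℝ) ^ θ := by
  obtain ⟨k0, hk0⟩ := eventually_atTop.mp hab
  obtain ⟨N0, hN0⟩ := sparse_close (fun n => Real.log (u n)) (2 * C) (by positivity)
    (log_step u C hC hu h) s hs β hβ hgap (2 * Real.log 2) (by positivity) k0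
  filter_upwards [eventually_ge_atTop (N0 + 4)] with n hn
  obtain ⟨k, hk, hsn, hn2, hv⟩ := hN0 n (by omega)
  have hs2 : 2 ≤ s k := by omega
  have hsk : (0 : ℝ) < s k := by exact_mod_cast (by omega : 0 < s k)
  have hn0 : (0 : ℝ) < n := by exact_mod_cast (by omega : 0 < n)
  have hsn' : (s k : ℝ) ≤ n := by exact_mod_cast hsn
  have hn2' : (n : ℝ) ≤ 2 * s k := by exact_mod_cast hn2
  have p1 := hu n (by omega)
  have p2 := hu (s k) hs2
  obtain ⟨h1, h2⟩ := hk0 k hk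
  rw [← Real.log_div p1.ne' p2.ne', show 2 * Real.log 2 / 2 = Real.log 2 by ring, abs_lt] at hv
  have h3 : u n / u (s k) < 2 := by
    rw [← Real.log_lt_log_iff (by positivity) (by norm_num)]; exact hv.2
  have h4 : 1 / 2 < u n / u (s k) := by
    rw [← Real.log_lt_log_iff (by norm_num) (by positivity), one_div, Real.log_inv]; exact hv.1
  rw [div_lt_iff₀ p2] at h3
  rw [lt_div_iff₀ p2] at h4
  have hb0 : 0 ≤ b := by
    by_contra hcon
    push Not at hcon
    have h5 : 0 < (s k : ℝ) ^ θ := Real.rpow_pos_of_pos hsk θ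
    nlinarith [mul_pos ha h5]
  constructor
  · have h5 : (n : ℝ) ^ θ ≤ 2 ^ θ * (s k : ℝ) ^ θ := by
      rw [← Real.mul_rpow (by norm_num) hsk.le]
      exact Real.rpow_le_rpow hn0.le hn2' hθ
    have h6 : (0 : ℝ) < 2 ^ θ := by positivity
    rw [Real.rpow_add (by norm_num), Real.rpow_one]
    calc a / (2 ^ θ * 2) * (n : ℝ) ^ θ ≤ a / (2 ^ θ * 2) * (2 ^ θ * (s k : ℝ) ^ θ) := by gcongr
      _ = 1 / 2 * (a * (s k : ℝ) ^ θ) := by field_simp
      _ ≤ 1 / 2 * u (s k) := by gcongr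
      _ ≤ u n := h4.le
  · calc u n ≤ 2 * u (s k) := h3.le
      _ ≤ 2 * (b * (s k : ℝ) ^ θ) := by gcongr
      _ ≤ 2 * (b * (n : ℝ) ^ θ) := by gcongr
      _ = _ := by ring

lemma rN_bdd : ∃ B : ℝ, 0 ≤ B ∧ ∀ n : ℕ, rN n ≤ B := by
  have h0 : Tendsto (fun m : ℕ => rN m) atTop (𝓝 0) := by
    have := pow_mul_rN (β := 0) (by norm_num)
    simpa using this
  obtain ⟨B, hB⟩ := h0.bddAbove_range
  refine ⟨max B 0, le_max_right _ _, fun n => ?_⟩
  exact (hB ⟨n, rfl⟩).trans (le_max_left _ _)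

theorem bnd : S_bnd := BND_proof CONV_proof
theorem main' : S_main := MAIN_proof RATE_proof bnd (RATIO_proof Pool.Agent.H739K.bnd)
theorem f0 : S_F0 := F0_proof main' bnd
theorem f1 : S_F1 := F1_proof main' bnd CONV_proof
theorem f2 : S_F2 := F2_proof f0 CONV_proof AREA_proof f2a
theorem f3 : S_F3 := F3_proof f0 CONV_proof BOX_proof SWAP_proof
theorem f4 : S_F4 := F4_proof f0 CONV_proof AREA_proof f2a f2

/-- ratios with a power factor -/
lemma ratio_pow (v : ℕ → ℝ) (hv : ∀ n, 2 ≤ n → 0 < v n)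
    (h : ∃ K : ℝ, ∀ n, 2 ≤ n → |v (n + 1) / v n - 1| ≤ K * rN n) (θ : ℝ) :
    ∃ K : ℝ, 0 ≤ K ∧ ∀ n, 2 ≤ n →
      |(v (n + 1) * ((n + 1 : ℕ) : ℝ) ^ θ) / (v n * (n : ℝ) ^ θ) - 1| ≤ K * rN n := by
  obtain ⟨K, hK⟩ := h
  obtain ⟨c, hc0, hc⟩ := one_div_le_rN
  obtain ⟨B, hB0, hB⟩ := rN_bdd
  obtain ⟨a, ha0, ha⟩ := pow_ratio θ
  refine ⟨|K| * (1 + a * c * B) + a * c, by positivity, fun n hn => ?_⟩
  have hn0 : (0 : ℝ) < n := by exact_mod_cast (by omega : 0 < n)
  have hp := hv n hn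
  have h1 := hK n hn
  have h2 := hc n hn
  have h3 := ha n hn
  have hr0 : 0 ≤ rN n := Real.sqrt_nonneg _
  obtain ⟨x, hx⟩ : ∃ x : ℝ, x = v (n + 1) / v n - 1 := ⟨_, rfl⟩
  obtain ⟨y, hy⟩ : ∃ y : ℝ, y = ((n + 1 : ℕ) : ℝ) ^ θ / (n : ℝ) ^ θ - 1 := ⟨_, rfl⟩
  have e : (v (n + 1) * ((n + 1 : ℕ) : ℝ) ^ θ) / (v n * (n : ℝ) ^ θ) - 1 = x * (1 + y) + y := by
    rw [hx, hy]
    have : (n : ℝ) ^ θ ≠ 0 := (Real.rpow_pos_of_pos hn0 _).ne'
    field_simp
    ring
  have hxb : |x| ≤ |K| * rN n := by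
    rw [hx]
    exact h1.trans (mul_le_mul_of_nonneg_right (le_abs_self K) hr0)
  have hyb : |y| ≤ a * c * rN n := by
    rw [← hy] at h3
    calc |y| ≤ a / n := h3
      _ = a * (1 / n) := by ring
      _ ≤ a * (c * rN n) := by gcongr
      _ = _ := by ring
  have hyb' : |y| ≤ a * c * B := hyb.trans (by gcongr; exact hB n)
  rw [e]
  calc |x * (1 + y) + y| ≤ |x| * (1 + |y|) + |y| := by
        refine (abs_add_le _ _).trans ?_
        rw [abs_mul]
        gcongr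
        exact (abs_add_le _ _).trans (by rw [abs_one])
    _ ≤ |K| * rN n * (1 + a * c * B) + a * c * rN n := by gcongr
    _ = _ := by ring

end Pool.Agent.W387.Q
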