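import Pool.Agent.W387.Q.Def
import Pool.Agent.H739K.RATE

/-!
# Kesten's ratio lemma with the rate `√((log n)^e / n)`
-/

set_option autoImplicit false
set_option linter.unusedVariables false
set_option linter.unusedSectionVars false

namespace Pool.Agent.W387.Q

open Finset Pool.Agent.H976R2 Pool.Agent.H924P Pool.Agent.H739K
open scoped Classical

variable [X : Ex]

lemma log_window {n m : ℕ} (hn : 3 ≤ n) (h1 : n ≤ 2 * m) (h2 : m ≤ 2 * n) :
    (Real.log m) ^ X.e ≤ 2 ^ X.e * (Real.log n) ^ X.e := by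
  have hl := Pool.Agent.H739K.RATE.one_le_log hn
  have hn0 : (0 : ℝ) < n := by exact_mod_cast (by omega : 0 < n)
  have hm1 : (1 : ℝ) ≤ m := by exact_mod_cast (by omega : 1 ≤ m)
  have hm0 : 0 ≤ Real.log m := Real.log_nonneg hm1
  have h3 : Real.log m ≤ 2 * Real.log n := by
    have h4 : Real.log m ≤ Real.log (2 * n) := by
      apply Real.log_le_log (by linarith)
      exact_mod_cast h2
    rw [Real.log_mul (by norm_num) hn0.ne'] at h4
    have h5 : Real.log 2 ≤ 1 := by
      have := Real.log_two_lt_d9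
      linarith
    linarith
  calc (Real.log m) ^ X.e ≤ (2 * Real.log n) ^ X.e := pow_le_pow_left₀ hm0 h3 X.e
    _ = 2 ^ X.e * (Real.log n) ^ X.e := by rw [mul_pow]

theorem RATE_proof : S_rate := by
  intro K D hK hD
  obtain ⟨D', hD'⟩ : ∃ D' : ℝ, D' = max D 1 := ⟨_, rfl⟩
  have hD1 : 1 ≤ D' := by rw [hD']; exact le_max_right _ _
  have hDD : D ≤ D' := by rw [hD']; exact le_max_left _ _
  have hD0 : 0 < D' := by linarith
  obtain ⟨C0, hC0⟩ : ∃ C0 : ℝ, C0 = 16 * D' * ((8 * 2 ^ X.e) * K + 1) := ⟨_, rfl⟩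
  have hC0pos : 0 < C0 := by rw [hC0]; positivity
  obtain ⟨N, hN⟩ : ∃ N : ℕ, ∀ n : ℕ, N ≤ n → 4 * C0 * (Real.log n) ^ X.e < n := by
    have h1 : (fun x : ℝ => Real.log x ^ X.e) =o[Filter.atTop] (id : ℝ → ℝ) :=
      Real.isLittleO_pow_log_id_atTop
    have h2 := h1.bound (show (0 : ℝ) < 1 / (8 * C0) by positivity)
    have h3 := (tendsto_natCast_atTop_atTop (R := ℝ)).eventually h2
    have h4 := h3.and (Filter.eventually_ge_atTop 1)
    obtain ⟨N, hN⟩ := Filter.eventually_atTop.1 h4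
    refine ⟨N, fun n hn => ?_⟩
    obtain ⟨h5, h6⟩ := hN n hn
    have hn1 : (1 : ℝ) ≤ n := by exact_mod_cast h6
    rw [Real.norm_eq_abs, Real.norm_eq_abs, id, abs_of_nonneg (by linarith : (0 : ℝ) ≤ n)] at h5
    have h7 := (le_abs_self _).trans h5
    calc 4 * C0 * (Real.log n) ^ X.e ≤ 4 * C0 * (1 / (8 * C0) * n) := by gcongr
      _ = n / 2 := by field_simp; ring
      _ < n := by linarith
  obtain ⟨L0, hL0⟩ : ∃ L0 : ℝ, L0 = (Real.log N) ^ X.e := ⟨_, rfl⟩
  refine ⟨Real.sqrt C0 + (Real.exp ((2 * 2 ^ X.e) * K * L0) + 1) * (2 * Real.sqrt C0), ?_⟩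
  intro n b hn hb hstep
  have hn' : (3 : ℝ) ≤ n := by exact_mod_cast hn
  have hn0 : (0 : ℝ) < n := by linarith
  have hl := Pool.Agent.H739K.RATE.one_le_log hn
  have hL1 : 1 ≤ (Real.log n) ^ X.e := one_le_pow₀ hl
  set L := (Real.log n) ^ X.e with hL
  have hb' : ∀ m : ℕ, n ≤ 2 * m → m ≤ 2 * n → m % 2 = n % 2 →
      Real.exp (-(2 ^ X.e * K * L)) ≤ b m ∧ b m ≤ Real.exp (2 ^ X.e * K * L) := by
    intro m h1 h2 h3
    have h4 := log_window hn h1 h2
    have h5 : K * (Real.log m) ^ X.e ≤ 2 ^ X.e * K * L := by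
      calc K * (Real.log m) ^ X.e ≤ K * (2 ^ X.e * (Real.log n) ^ X.e) :=
            mul_le_mul_of_nonneg_left h4 hK
        _ = _ := by rw [hL]; ring
    obtain ⟨h6, h7⟩ := hb m h1 h2 h3
    exact ⟨le_trans (Real.exp_le_exp.2 (by linarith)) h6,
      h7.trans (Real.exp_le_exp.2 h5)⟩
  have hstep' : ∀ m : ℕ, n ≤ 2 * m → m + 4 ≤ 2 * n → m % 2 = n % 2 →
      b (m + 2) ^ 2 ≤ b m * b (m + 4) + D' / m * b m ^ 2 := by
    intro m h1 h2 h3
    refine (hstep m h1 h2 h3).trans ?_
    gcongr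
  have hbn := hb' n (by omega) (by omega) rfl
  have hbn2 := hb' (n + 2) (by omega) (by omega) (by omega)
  have hbpos : 0 < b n := lt_of_lt_of_le (Real.exp_pos _) hbn.1
  have hbpos2 : 0 < b (n + 2) := lt_of_lt_of_le (Real.exp_pos _) hbn2.1
  have hKL : 0 ≤ K * L := by positivity
  -- the main estimate
  have main : ∀ δ : ℝ, 0 < δ → δ ≤ 1 / 2 → δ ≤ |b (n + 2) / b n - 1| → δ ^ 2 * n ≤ C0 * L := by
    intro δ h0 h1 h2
    have hC : 16 * D' * (8 * (2 ^ X.e * K * L) + 1) ≤ C0 * L := by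
      rw [hC0]
      have : 16 * D' * (8 * (2 ^ X.e * K * L) + 1) ≤ 16 * D' * (8 * (2 ^ X.e * K * L) + L) := by gcongr
      refine this.trans (le_of_eq ?_)
      ring
    rcases le_total 0 (b (n + 2) / b n - 1) with h3 | h3
    · rw [abs_of_nonneg h3] at h2
      have h4 := Pool.Agent.H739K.RATE.upper hD1 hn hb' hstep' h0 (by linarith) (by linarith)
      refine h4.trans (le_trans ?_ hC)
      gcongr
      norm_num
    · rw [abs_of_nonpos h3] at h2
      have h4 := Pool.Agent.H739K.RATE.lower hD1 hn hb' hstep' h0 h1 (by linarith)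
      refine h4.trans (le_trans ?_ hC)
      gcongr
      norm_num
  have hrt : rt n = Real.sqrt (L / n) := rfl
  have hs0 : 0 ≤ Real.sqrt (L / n) := Real.sqrt_nonneg _
  have hsC : 0 ≤ Real.sqrt C0 := Real.sqrt_nonneg _
  rw [hrt]
  by_cases hc : |b (n + 2) / b n - 1| ≤ 1 / 2
  · have h1 : |b (n + 2) / b n - 1| ≤ Real.sqrt C0 * Real.sqrt (L / n) := by
      rcases (abs_nonneg (b (n + 2) / b n - 1)).eq_or_lt with h0 | h0
      · rw [← h0]; positivity
      · have h3 := main _ h0 hc le_rfl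
        rw [← Real.sqrt_mul hC0pos.le]
        apply Real.le_sqrt_of_sq_le
        rw [← mul_div_assoc, le_div_iff₀ hn0]
        exact h3
    refine h1.trans ?_
    apply mul_le_mul_of_nonneg_right _ hs0
    have : 0 ≤ (Real.exp ((2 * 2 ^ X.e) * K * L0) + 1) * (2 * Real.sqrt C0) := by positivity
    linarith
  · push Not at hc
    have h3 := main (1 / 2) (by norm_num) le_rfl hc.le
    have hnN : n < N := by
      by_contra hcon
      have h4 := hN n (by omega)
      have h5 : 4 * C0 * L < n := h4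
      nlinarith
    have hLL : L ≤ L0 := by
      rw [hL0, hL]
      apply pow_le_pow_left₀ (by linarith)
      apply Real.log_le_log hn0
      exact_mod_cast hnN.le
    have h4 : |b (n + 2) / b n - 1| ≤ Real.exp ((2 * 2 ^ X.e) * K * L0) + 1 := by
      have h5 : b (n + 2) / b n ≤ Real.exp ((2 * 2 ^ X.e) * K * L0) := by
        rw [div_le_iff₀ hbpos]
        calc b (n + 2) ≤ Real.exp (2 ^ X.e * K * L) := hbn2.2
          _ = Real.exp ((2 * 2 ^ X.e) * K * L) * Real.exp (-(2 ^ X.e * K * L)) := by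
              rw [← Real.exp_add]; congr 1; ring
          _ ≤ Real.exp ((2 * 2 ^ X.e) * K * L0) * b n := by
              apply mul_le_mul _ hbn.1 (Real.exp_pos _).le (Real.exp_pos _).le
              apply Real.exp_le_exp.2
              gcongr
      have h6 : 0 < b (n + 2) / b n := by positivity
      rw [abs_le]
      constructor
      · have := Real.exp_pos ((2 * 2 ^ X.e) * K * L0)
        linarith
      · linarith
    have h5 : 1 ≤ 2 * Real.sqrt C0 * Real.sqrt (L / n) := by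
      rw [mul_assoc, ← Real.sqrt_mul hC0pos.le]
      have h6 : (1 / 2 : ℝ) ≤ Real.sqrt (C0 * (L / n)) := by
        apply Real.le_sqrt_of_sq_le
        rw [← mul_div_assoc, le_div_iff₀ hn0]
        exact h3
      linarith
    calc |b (n + 2) / b n - 1| ≤ (Real.exp ((2 * 2 ^ X.e) * K * L0) + 1) * 1 := by linarith
      _ ≤ (Real.exp ((2 * 2 ^ X.e) * K * L0) + 1) * (2 * Real.sqrt C0 * Real.sqrt (L / n)) := by
          gcongr
      _ = (Real.exp ((2 * 2 ^ X.e) * K * L0) + 1) * (2 * Real.sqrt C0) * Real.sqrt (L / n) := by ring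
      _ ≤ _ := by
          apply mul_le_mul_of_nonneg_right _ hs0
          linarith

end Pool.Agent.W387.Q
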