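import Pool.Agent.W387.Q.Poly

/-!
# Convergence along sparse sequences, with the sharp gap condition

If `|v (n+1) - v n| ≤ C rN n` then `v` is known up to a small multiple of `w` as soon as it is known
along a sequence `s` with `(s (k+1) - s k) rN (s k) / w (s k) → 0`.
-/

set_option autoImplicit false
set_option linter.unusedVariables false
set_option linter.unusedSectionVars false

namespace Pool.Agent.W387.Q

open Filter Topology

variable [X : Ex]

lemma rN_nonneg (n : ℕ) : 0 ≤ rN n := Real.sqrt_nonneg _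

lemma rN_tendsto : Tendsto (fun m : ℕ => rN m) atTop (𝓝 0) := by
  have := pow_mul_rN (β := 0) (by norm_num)
  simpa using this

/-- `rN` is decreasing up to a factor on `[m, 2m]` -/
lemma rN_window {m j : ℕ} (hm : 2 ≤ m) (hj : m ≤ j) (hj2 : j ≤ 2 * m) :
    rN j ≤ 2 ^ X.e * rN m := by
  have hm' : (2 : ℝ) ≤ m := by exact_mod_cast hm
  have hjm : (m : ℝ) ≤ j := by exact_mod_cast hj
  have hj2' : (j : ℝ) ≤ 2 * m := by exact_mod_cast hj2
  rw [rN_eq, rN_eq]
  have hl0 : 0 < Real.log m := Real.log_pos (by linarith)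
  have hlog : Real.log j ≤ 2 * Real.log m := by
    calc Real.log j ≤ Real.log (m ^ 2) := by
          apply Real.log_le_log (by linarith)
          nlinarith
      _ = 2 * Real.log m := by rw [Real.log_pow]; norm_num
  have hlj : 0 ≤ Real.log j := Real.log_nonneg (by linarith)
  have h1 : Real.log j ^ X.e / j ≤ (2 ^ X.e) ^ 2 * (Real.log m ^ X.e / m) := by
    have h2e : (1 : ℝ) ≤ 2 ^ X.e := one_le_pow₀ (by norm_num)
    calc Real.log j ^ X.e / j ≤ (2 * Real.log m) ^ X.e / m := by gcongr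
      _ = 1 * 2 ^ X.e * (Real.log m ^ X.e / m) := by rw [mul_pow]; ring
      _ ≤ 2 ^ X.e * 2 ^ X.e * (Real.log m ^ X.e / m) := by gcongr
      _ = (2 ^ X.e) ^ 2 * (Real.log m ^ X.e / m) := by ring
  calc Real.sqrt (Real.log j ^ X.e / j) ≤ Real.sqrt ((2 ^ X.e) ^ 2 * (Real.log m ^ X.e / m)) :=
        Real.sqrt_le_sqrt h1
    _ = 2 ^ X.e * Real.sqrt (Real.log m ^ X.e / m) := by
        rw [Real.sqrt_mul (by positivity), Real.sqrt_sq (by positivity)]

/-- the general comparison of late values with values along the sparse sequence -/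
theorem close_gen (v : ℕ → ℝ) (C : ℝ) (hC : 0 ≤ C)
    (h : ∀ᶠ n : ℕ in atTop, |v (n + 1) - v n| ≤ C * rN n)
    (w : ℕ → ℝ) (hw0 : ∀ᶠ n : ℕ in atTop, 0 < w n) (hw : ∀ᶠ n : ℕ in atTop, w n ≤ n * rN n)
    (s : ℕ → ℕ) (hs : Tendsto s atTop atTop)
    (hgap : Tendsto (fun k => ((s (k + 1) : ℝ) - s k) * rN (s k) / w (s k)) atTop (𝓝 0))
    (ε : ℝ) (hε : 0 < ε) (k0 : ℕ) :
    ∃ N0 : ℕ, ∀ n, N0 ≤ n → ∃ k, k0 ≤ k ∧ s k ≤ n ∧ n ≤ 2 * s k ∧
      |v n - v (s k)| < ε * w (s k) := by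
  obtain ⟨B0, hB0⟩ : ∃ B0 : ℝ, B0 = (C + 1) * 2 ^ X.e := ⟨_, rfl⟩
  have hB0p : 0 < B0 := by rw [hB0]; positivity
  -- eventually (in the values) all estimates hold
  obtain ⟨M, hM⟩ := eventually_atTop.mp (h.and (hw0.and (hw.and (eventually_ge_atTop 2))))
  -- eventually (in the index)
  have hg := hgap.eventually_lt_const (show (0 : ℝ) < min 1 (ε / (2 * B0)) by positivity)
  obtain ⟨k1, hk1⟩ := eventually_atTop.mp (hg.and ((hs.eventually_ge_atTop M)))
  -- bound for `s` on the first indices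
  obtain ⟨B, hB⟩ : ∃ B : ℕ, ∀ k ≤ k0 + k1, s k ≤ B :=
    ⟨(Finset.range (k0 + k1 + 1)).sup s, fun k hk => Finset.le_sup (Finset.mem_range.mpr (by omega))⟩
  refine ⟨B + 1, fun n hn => ?_⟩
  have hex : ∃ k, n < s k := (hs.eventually_gt_atTop n).exists
  classical
  have hk1' := Nat.find_spec hex
  have hk2' : ∀ k, k < Nat.find hex → ¬ n < s k := fun k hk => Nat.find_min hex hk
  set k' := Nat.find hex with hk'
  have hk'0 : k0 + k1 < k' := by
    by_contra hcon
    have := hB k' (by omega)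
    omega
  obtain ⟨k, hkk⟩ : ∃ k, k' = k + 1 := ⟨k' - 1, by omega⟩
  rw [hkk] at hk1'
  have hsk : s k ≤ n := by
    have := hk2' k (by omega)
    omega
  obtain ⟨hgk, hMk⟩ := hk1 k (by omega)
  obtain ⟨-, hw0k, hwk, hsk2⟩ := hM (s k) hMk
  have hsk1' : (2 : ℝ) ≤ s k := by exact_mod_cast hsk2
  have hrn : 0 ≤ rN (s k) := rN_nonneg _
  have hrn' : 0 < rN (s k) := by
    rcases hrn.eq_or_lt with h0 | h0
    · rw [← h0, mul_zero] at hwk
      linarith
    · exact h0
  have hn1 : (n : ℝ) < s (k + 1) := by exact_mod_cast hk1'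
  -- the gap is small
  have hg1 : ((s (k + 1) : ℝ) - s k) * rN (s k) < w (s k) := by
    have := hgk.trans_le (min_le_left _ _)
    rwa [div_lt_one hw0k] at this
  have hg2 : ((s (k + 1) : ℝ) - s k) * rN (s k) < ε / (2 * B0) * w (s k) := by
    have := hgk.trans_le (min_le_right _ _)
    rwa [div_lt_iff₀ hw0k] at this
  have hg3 : (s (k + 1) : ℝ) - s k < s k := by
    by_contra hcon
    push Not at hcon
    have : (s k : ℝ) * rN (s k) ≤ ((s (k + 1) : ℝ) - s k) * rN (s k) :=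
      mul_le_mul_of_nonneg_right hcon hrn
    linarith
  have hn2 : n ≤ 2 * s k := by
    have : (n : ℝ) < 2 * s k := by linarith
    have : n < 2 * s k := by exact_mod_cast this
    omega
  -- telescoping
  have htel : ∀ j : ℕ, s k + j ≤ n → |v (s k + j) - v (s k)| ≤ j * (C * (2 ^ X.e * rN (s k))) := by
    intro j
    induction j with
    | zero => intro _; simp
    | succ j ih =>
      intro hj
      have h1 := ih (by omega)
      have h2 := (hM (s k + j) (by omega)).1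
      have h3 := rN_window hsk2 (show s k ≤ s k + j by omega) (by omega)
      have h4 : |v (s k + (j + 1)) - v (s k + j)| ≤ C * (2 ^ X.e * rN (s k)) :=
        h2.trans (mul_le_mul_of_nonneg_left h3 hC)
      calc |v (s k + (j + 1)) - v (s k)|
          ≤ |v (s k + (j + 1)) - v (s k + j)| + |v (s k + j) - v (s k)| := abs_sub_le _ _ _
        _ ≤ C * (2 ^ X.e * rN (s k)) + j * (C * (2 ^ X.e * rN (s k))) := add_le_add h4 h1
        _ = ((j + 1 : ℕ) : ℝ) * (C * (2 ^ X.e * rN (s k))) := by push_cast; ring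
  have h1 := htel (n - s k) (by omega)
  have e1 : s k + (n - s k) = n := by omega
  rw [e1] at h1
  have hdiff : ((n - s k : ℕ) : ℝ) ≤ (s (k + 1) : ℝ) - s k := by
    rw [Nat.cast_sub hsk]
    linarith
  refine ⟨k, by omega, hsk, hn2, ?_⟩
  calc |v n - v (s k)| ≤ ((n - s k : ℕ) : ℝ) * (C * (2 ^ X.e * rN (s k))) := h1
    _ ≤ ((s (k + 1) : ℝ) - s k) * (C * (2 ^ X.e * rN (s k))) := by gcongr
    _ = (C * 2 ^ X.e) * (((s (k + 1) : ℝ) - s k) * rN (s k)) := by ring
    _ ≤ B0 * (((s (k + 1) : ℝ) - s k) * rN (s k)) := by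
        apply mul_le_mul_of_nonneg_right
        · rw [hB0]; gcongr; linarith
        · apply mul_nonneg _ hrn
          linarith [show (0 : ℝ) ≤ ((n - s k : ℕ) : ℝ) from Nat.cast_nonneg _]
    _ ≤ B0 * (ε / (2 * B0) * w (s k)) := by gcongr
    _ = ε / 2 * w (s k) := by field_simp
    _ < ε * w (s k) := by
        apply mul_lt_mul_of_pos_right _ hw0k
        linarith

lemma one_le_mul_rN : ∀ᶠ n : ℕ in atTop, (1 : ℝ) ≤ n * rN n := by
  filter_upwards [eventually_ge_atTop 3] with n hn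
  have hl := Pool.Agent.H739K.RATE.one_le_log hn
  have hn' : (3 : ℝ) ≤ n := by exact_mod_cast hn
  have h1 : (1 : ℝ) / n ≤ rN n := by
    rw [rN_eq]
    apply Real.le_sqrt_of_sq_le
    rw [div_pow, one_pow, div_le_div_iff₀ (by positivity) (by linarith)]
    have h2 : (1 : ℝ) ≤ Real.log n ^ X.e := one_le_pow₀ hl
    nlinarith
  rw [div_le_iff₀ (by linarith)] at h1
  linarith

lemma log_le_mul_rN : ∀ᶠ n : ℕ in atTop, Real.log n ≤ n * rN n := by
  filter_upwards [eventually_ge_atTop 3] with n hn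
  have hl := Pool.Agent.H739K.RATE.one_le_log hn
  have hn' : (3 : ℝ) ≤ n := by exact_mod_cast hn
  have h1 : Real.log n / n ≤ rN n := by
    rw [rN_eq]
    apply Real.le_sqrt_of_sq_le
    rw [div_pow, div_le_div_iff₀ (by positivity) (by linarith)]
    have h2 : Real.log n ≤ Real.log n ^ X.e := le_self_pow₀ hl (by have := X.pos; omega)
    have h3 : Real.log n ≤ n := (Real.log_le_sub_one_of_pos (by linarith)).trans (by linarith)
    calc Real.log n ^ 2 * n = Real.log n * n * Real.log n := by ring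
      _ ≤ Real.log n ^ X.e * n * n := by
          have : 0 ≤ Real.log n := by linarith
          gcongr
      _ = Real.log n ^ X.e * n ^ 2 := by ring
  rw [div_le_iff₀ (by linarith)] at h1
  linarith

/-- additive version -/
theorem add_gen (v : ℕ → ℝ) (C : ℝ) (hC : 0 ≤ C)
    (h : ∀ᶠ n : ℕ in atTop, |v (n + 1) - v n| ≤ C * rN n)
    (s : ℕ → ℕ) (hs : Tendsto s atTop atTop)
    (hgap : Tendsto (fun k => ((s (k + 1) : ℝ) - s k) * rN (s k)) atTop (𝓝 0)) (c : ℝ)
    (hc : Tendsto (fun k => v (s k)) atTop (𝓝 c)) : Tendsto v atTop (𝓝 c) := by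
  rw [Metric.tendsto_atTop]
  intro ε hε
  obtain ⟨k0, hk0⟩ := (Metric.tendsto_atTop.mp hc) (ε / 2) (by positivity)
  obtain ⟨N0, hN0⟩ := close_gen v C hC h (fun _ => 1) (Eventually.of_forall fun _ => one_pos)
    one_le_mul_rN s hs (by simpa using hgap) (ε / 2) (by positivity) k0
  refine ⟨N0, fun n hn => ?_⟩
  obtain ⟨k, hk, -, -, h2⟩ := hN0 n hn
  have h3 := hk0 k hk
  rw [Real.dist_eq] at h3 ⊢
  rw [mul_one] at h2
  calc |v n - c| ≤ |v n - v (s k)| + |v (s k) - c| := abs_sub_le _ _ _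
    _ < ε / 2 + ε / 2 := add_lt_add h2 h3
    _ = ε := by ring

/-- multiplicative version -/
theorem mul_gen (u : ℕ → ℝ) (C : ℝ) (hu : ∀ n : ℕ, 2 ≤ n → 0 < u n)
    (h : ∀ n : ℕ, 2 ≤ n → |u (n + 1) / u n - 1| ≤ C * rN n)
    (s : ℕ → ℕ) (hs : Tendsto s atTop atTop)
    (hgap : Tendsto (fun k => ((s (k + 1) : ℝ) - s k) * rN (s k)) atTop (𝓝 0)) (c : ℝ)
    (hc0 : 0 < c) (hc : Tendsto (fun k => u (s k)) atTop (𝓝 c)) : Tendsto u atTop (𝓝 c) := by
  have h' : ∀ n : ℕ, 2 ≤ n → |u (n + 1) / u n - 1| ≤ |C| * rN n := fun n hn =>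
    (h n hn).trans (mul_le_mul_of_nonneg_right (le_abs_self _) (rN_nonneg n))
  have h2 : Tendsto (fun k => Real.log (u (s k))) atTop (𝓝 (Real.log c)) :=
    (Real.continuousAt_log hc0.ne').tendsto.comp hc
  have h3 := add_gen (fun n => Real.log (u n)) (2 * |C|) (by positivity)
    (log_step u |C| (abs_nonneg C) hu h') s hs hgap (Real.log c) h2
  have h4 := (Real.continuous_exp.tendsto (Real.log c)).comp h3
  rw [Real.exp_log hc0] at h4
  refine h4.congr' ?_
  filter_upwards [eventually_ge_atTop 2] with n hn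
  exact Real.exp_log (hu n hn)

/-- two-sided bounds along a sparse sequence give two-sided bounds -/
theorem bounds_gen (u : ℕ → ℝ) (C : ℝ) (hu : ∀ n : ℕ, 2 ≤ n → 0 < u n)
    (h : ∀ n : ℕ, 2 ≤ n → |u (n + 1) / u n - 1| ≤ C * rN n)
    (s : ℕ → ℕ) (hs : Tendsto s atTop atTop)
    (hgap : Tendsto (fun k => ((s (k + 1) : ℝ) - s k) * rN (s k)) atTop (𝓝 0))
    (a b θ : ℝ) (ha : 0 < a) (hθ : 0 ≤ θ)
    (hab : ∀ᶠ k in atTop, a * (s k : ℝ) ^ θ ≤ u (s k) ∧ u (s k) ≤ b * (s k : ℝ) ^ θ) :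
    ∀ᶠ n : ℕ in atTop, a / 2 ^ (θ + 1) * (n : ℝ) ^ θ ≤ u n ∧ u n ≤ 2 * b * (n : ℝ) ^ θ := by
  have h' : ∀ n : ℕ, 2 ≤ n → |u (n + 1) / u n - 1| ≤ |C| * rN n := fun n hn =>
    (h n hn).trans (mul_le_mul_of_nonneg_right (le_abs_self _) (rN_nonneg n))
  obtain ⟨k0, hk0⟩ := eventually_atTop.mp hab
  obtain ⟨N0, hN0⟩ := close_gen (fun n => Real.log (u n)) (2 * |C|) (by positivity)
    (log_step u |C| (abs_nonneg C) hu h') (fun _ => 1) (Eventually.of_forall fun _ => one_pos)
    one_le_mul_rN s hs (by simpa using hgap) (Real.log 2) (Real.log_pos (by norm_num)) k0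
  filter_upwards [eventually_ge_atTop (N0 + 4)] with n hn
  obtain ⟨k, hk, hsn, hn2, hv⟩ := hN0 n (by omega)
  have hs2 : 2 ≤ s k := by omega
  have hsk : (0 : ℝ) < s k := by exact_mod_cast (by omega : 0 < s k)
  have hn0 : (0 : ℝ) < n := by exact_mod_cast (by omega : 0 < n)
  have hsn' : (s k : ℝ) ≤ n := by exact_mod_cast hsn
  have hn2' : (n : ℝ) ≤ 2 * s k := by exact_mod_cast hn2
  have p1 := hu n (by omega)
  have p2 := hu (s k) hs2
  obtain ⟨h1, h2⟩ := hk0 k hk
  rw [← Real.log_div p1.ne' p2.ne', mul_one, abs_lt] at hv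
  have h3 : u n / u (s k) < 2 := by
    rw [← Real.log_lt_log_iff (by positivity) (by norm_num)]; exact hv.2
  have h4 : 1 / 2 < u n / u (s k) := by
    rw [← Real.log_lt_log_iff (by norm_num) (by positivity), one_div, Real.log_inv]; exact hv.1
  rw [div_lt_iff₀ p2] at h3
  rw [lt_div_iff₀ p2] at h4
  have hb0 : 0 ≤ b := by
    by_contra hcon
    push Not at hcon
    have h5 : 0 < (s k : ℝ) ^ θ := Real.rpow_pos_of_pos hsk θ
    nlinarith [mul_pos ha h5]
  constructor
  · have h5 : (n : ℝ) ^ θ ≤ 2 ^ θ * (s k : ℝ) ^ θ := by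
      rw [← Real.mul_rpow (by norm_num) hsk.le]
      exact Real.rpow_le_rpow hn0.le hn2' hθ
    have h6 : (0 : ℝ) < 2 ^ θ := by positivity
    rw [Real.rpow_add (by norm_num), Real.rpow_one]
    calc a / (2 ^ θ * 2) * (n : ℝ) ^ θ ≤ a / (2 ^ θ * 2) * (2 ^ θ * (s k : ℝ) ^ θ) := by gcongr
      _ = 1 / 2 * (a * (s k : ℝ) ^ θ) := by field_simp
      _ ≤ 1 / 2 * u (s k) := by gcongr
      _ ≤ u n := h4.le
  · calc u n ≤ 2 * u (s k) := h3.le
      _ ≤ 2 * (b * (s k : ℝ) ^ θ) := by gcongr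
      _ ≤ 2 * (b * (n : ℝ) ^ θ) := by gcongr
      _ = _ := by ring

/-- the logarithmic exponents: existence along a sparse sequence implies existence.  Here `w n` is
the logarithm used to measure the exponent, `|w n - log n| ≤ 1`. -/
theorem exp_gen (u : ℕ → ℝ) (C : ℝ) (hu : ∀ n : ℕ, 2 ≤ n → 0 < u n)
    (h : ∀ n : ℕ, 2 ≤ n → |u (n + 1) / u n - 1| ≤ C * rN n)
    (w : ℕ → ℝ) (hw : ∀ n, 2 ≤ n → |w n - Real.log n| ≤ 1)
    (s : ℕ → ℕ) (hs : Tendsto s atTop atTop)
    (hgap : Tendsto (fun k => ((s (k + 1) : ℝ) - s k) * rN (s k) / Real.log (s k)) atTop (𝓝 0))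
    (c : ℝ) (hc : Tendsto (fun k => Real.log (u (s k)) / w (s k)) atTop (𝓝 c)) :
    Tendsto (fun n : ℕ => Real.log (u n) / w n) atTop (𝓝 c) := by
  have h' : ∀ n : ℕ, 2 ≤ n → |u (n + 1) / u n - 1| ≤ |C| * rN n := fun n hn =>
    (h n hn).trans (mul_le_mul_of_nonneg_right (le_abs_self _) (rN_nonneg n))
  have hlt : Tendsto (fun n : ℕ => Real.log (n : ℝ)) atTop atTop :=
    Real.tendsto_log_atTop.comp tendsto_natCast_atTop_atTop
  rw [Metric.tendsto_atTop]
  intro ε hε
  obtain ⟨δ, hδ⟩ : ∃ δ, δ = ε / 8 := ⟨_, rfl⟩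
  have hδ0 : 0 < δ := by rw [hδ]; positivity
  have hst : ∀ᶠ k in atTop, 2 ≤ s k := hs.eventually_ge_atTop 2
  have hc' := (Metric.tendsto_nhds.mp hc) δ hδ0
  obtain ⟨k0, hk0⟩ := eventually_atTop.mp (hst.and hc')
  obtain ⟨N0, hN0⟩ := close_gen (fun n => Real.log (u n)) (2 * |C|) (by positivity)
    (log_step u |C| (abs_nonneg C) hu h') (fun n => Real.log n)
    (by filter_upwards [hlt.eventually_gt_atTop 0] with n hn using hn)
    log_le_mul_rN s hs hgap δ hδ0 k0
  obtain ⟨N1, hN1⟩ := eventually_atTop.mp (hlt.eventually_gt_atTop (2 + 8 * |c| / δ))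
  refine ⟨max N0 (max N1 2), fun n hn => ?_⟩
  obtain ⟨k, hk, hk1, hk2, hk3⟩ := hN0 n ((le_max_left _ _).trans hn)
  have hn1 := hN1 n (((le_max_left _ _).trans (le_max_right _ _)).trans hn)
  have hn2 : 2 ≤ n := ((le_max_right _ _).trans (le_max_right _ _)).trans hn
  obtain ⟨hs2, hck⟩ := hk0 k hk
  rw [Real.dist_eq] at hck ⊢
  have hnr : (2 : ℝ) ≤ n := by exact_mod_cast hn2
  have hsr : (2 : ℝ) ≤ s k := by exact_mod_cast hs2
  have hk1r : (s k : ℝ) ≤ n := by exact_mod_cast hk1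
  have hk2r : (n : ℝ) ≤ 2 * s k := by exact_mod_cast hk2
  have hLs : 0 < Real.log (s k) := Real.log_pos (by linarith)
  have hLsn : Real.log (s k) ≤ Real.log n := Real.log_le_log (by linarith) (by linarith)
  have hl2 : Real.log 2 ≤ 1 := by have := Real.log_two_lt_d9; linarith
  have hLns : Real.log n ≤ 1 + Real.log (s k) := by
    have : Real.log n ≤ Real.log 2 + Real.log (s k) := by
      rw [← Real.log_mul (by norm_num) (by positivity)]
      exact Real.log_le_log (by linarith) (by linarith)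
    linarith
  have hq : 0 ≤ 8 * |c| / δ := by positivity
  have hcw := abs_le.mp (hw n hn2)
  have hcws := abs_le.mp (hw (s k) hs2)
  have hwn : Real.log n / 2 ≤ w n := by linarith [hcw.1]
  have hwn0 : 0 < w n := by linarith
  have hws : 0 < w (s k) := by linarith [hcws.1]
  have hwsle : w (s k) ≤ 2 * Real.log n := by linarith [hcws.2]
  have g1 : |Real.log (u (s k)) - c * w (s k)| ≤ δ * (2 * Real.log n) := by
    have e : Real.log (u (s k)) - c * w (s k) =
        (Real.log (u (s k)) / w (s k) - c) * w (s k) := by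
      field_simp
    rw [e, abs_mul, abs_of_pos hws]
    exact mul_le_mul hck.le hwsle hws.le hδ0.le
  have g2 : |c * w (s k) - c * w n| ≤ |c| * 3 := by
    rw [← mul_sub, abs_mul]
    apply mul_le_mul_of_nonneg_left _ (abs_nonneg c)
    rw [abs_le]; constructor <;> linarith [hcw.1, hcw.2, hcws.1, hcws.2]
  have g3 : |Real.log (u n) - Real.log (u (s k))| ≤ δ * Real.log n := by
    refine hk3.le.trans ?_
    gcongr
  have hcl : |c| * 3 ≤ δ * Real.log n / 2 := by
    have h1 : 8 * |c| / δ < Real.log n := by linarith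
    rw [div_lt_iff₀ hδ0] at h1
    have := abs_nonneg c
    linarith
  have g4 : |Real.log (u n) - c * w n| ≤ 7 / 2 * δ * Real.log n := by
    have e : Real.log (u n) - c * w n = (Real.log (u n) - Real.log (u (s k))) +
        (Real.log (u (s k)) - c * w (s k)) + (c * w (s k) - c * w n) := by ring
    rw [e]
    refine (abs_add_le _ _).trans ?_
    have := abs_add_le (Real.log (u n) - Real.log (u (s k))) (Real.log (u (s k)) - c * w (s k))
    linarith
  have e : Real.log (u n) / w n - c = (Real.log (u n) - c * w n) / w n := by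
    field_simp
  rw [e, abs_div, abs_of_pos hwn0, div_lt_iff₀ hwn0]
  calc |Real.log (u n) - c * w n| ≤ 7 / 2 * δ * Real.log n := g4
    _ = 7 / 8 * (ε * (Real.log n / 2)) := by rw [hδ]; ring
    _ ≤ 7 / 8 * (ε * w n) := by gcongr
    _ < ε * w n := by
        have : 0 < ε * w n := by positivity
        linarith

end Pool.Agent.W387.Q
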